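import Mathlib.Algebra.Order.BigOperators.Group.Finset
import Mathlib.Algebra.Notation.Lemmas
import Mathlib.Tactic.Monotonicity.Lemmas
import Mathlib.Combinatorics.SimpleGraph.Clique
import Mathlib.Tactic.Cases

-- ======== part 0: formerly Pool.Agent.MP_242484_co.Basic
section MrgPart0

set_option autoImplicit false

namespace Pool.Agent.MP_242484_co

open Finset

section Defs
variable {V : Type} [DecidableEq V]

/-- decrease `f` by one on `M` -/
def dec (f : V → ℕ) (M : Finset V) : V → ℕ := fun v => if v ∈ M then f v - 1 else f v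

lemma dec_of_mem {f : V → ℕ} {M : Finset V} {v : V} (h : v ∈ M) : dec f M v = f v - 1 := by
  simp [dec, h]

lemma dec_of_not_mem {f : V → ℕ} {M : Finset V} {v : V} (h : v ∉ M) : dec f M v = f v := by
  simp [dec, h]

lemma dec_le (f : V → ℕ) (M : Finset V) (v : V) : dec f M v ≤ f v := by
  unfold dec; split_ifs <;> omega

lemma le_dec (f : V → ℕ) (M : Finset V) (v : V) : f v - 1 ≤ dec f M v := by
  unfold dec; split_ifs <;> omega

/-- a family of positions (tokens `g`, colours still needed `h`) in which Painter can stay -/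
def Closed (G : SimpleGraph V) (P : (V → ℕ) → (V → ℕ) → Prop) : Prop :=
  ∀ g h, P g h → (∀ v, 0 < h v → 0 < g v) ∧
    ∀ M : Finset V, (∀ v ∈ M, 0 < h v) →
      ∃ I ⊆ M, G.IsIndepSet (↑I : Set V) ∧ P (dec g M) (dec h I)

def Win (G : SimpleGraph V) (g h : V → ℕ) : Prop := ∃ P, Closed G P ∧ P g h

lemma Win.pos {G : SimpleGraph V} {g h : V → ℕ} (W : Win G g h) (v : V) (hv : 0 < h v) :
    0 < g v := by
  obtain ⟨P, hP, hgh⟩ := W
  exact (hP g h hgh).1 v hv

lemma Win.step {G : SimpleGraph V} {g h : V → ℕ} (W : Win G g h) (M : Finset V)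
    (hM : ∀ v ∈ M, 0 < h v) :
    ∃ I ⊆ M, G.IsIndepSet (↑I : Set V) ∧ Win G (dec g M) (dec h I) := by
  obtain ⟨P, hP, hgh⟩ := W
  obtain ⟨I, hI, hind, hnew⟩ := (hP g h hgh).2 M hM
  exact ⟨I, hI, hind, P, hP, hnew⟩

lemma Win.le {G : SimpleGraph V} {g h : V → ℕ} (W : Win G g h) (v : V) : h v ≤ g v := by
  induction' hn : g v with n ih generalizing g h
  · by_contra hc
    have := W.pos v (by omega)
    omega
  · by_cases h0 : h v = 0
    · omega
    obtain ⟨I, -, -, hW⟩ := W.step {v} (by intro u hu; rw [mem_singleton.1 hu]; omega)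
    have h1 := ih hW (by rw [dec_of_mem (mem_singleton_self v)]; omega)
    have h2 := le_dec h I v
    omega

lemma Win.mono {G : SimpleGraph V} {g h g' h' : V → ℕ} (W : Win G g h)
    (hh : ∀ v, h' v ≤ h v) (hg : ∀ v, 0 < h' v → g v ≤ g' v) : Win G g' h' := by
  refine ⟨fun g' h' => ∃ g h, Win G g h ∧ (∀ v, h' v ≤ h v) ∧ (∀ v, 0 < h' v → g v ≤ g' v), ?_,
    g, h, W, hh, hg⟩
  rintro g' h' ⟨g, h, W, hh, hg⟩
  refine ⟨fun v hv => lt_of_lt_of_le (W.pos v (lt_of_lt_of_le hv (hh v))) (hg v hv), ?_⟩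
  intro M hM
  obtain ⟨I, hI, hind, hW⟩ := W.step M (fun v hv => lt_of_lt_of_le (hM v hv) (hh v))
  refine ⟨I, hI, hind, _, _, hW, ?_, ?_⟩
  · intro v
    have := hh v
    unfold dec; split_ifs <;> omega
  · intro v hv
    have := hg v (lt_of_lt_of_le hv (dec_le _ _ _))
    unfold dec; split_ifs <;> omega

end Defs

section Proj
variable {V V' : Type} [DecidableEq V] [DecidableEq V'] [Fintype V']

/-- projection lemma: blow-ups, relabelling -/
lemma Win.proj {G : SimpleGraph V} {G' : SimpleGraph V'} (π : V' → V)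
    (hadj : ∀ c d, G'.Adj c d → π c = π d ∨ G.Adj (π c) (π d))
    {g h : V → ℕ} (W : Win G g h) {g' h' : V' → ℕ}
    (hh : ∀ v, ∑ c ∈ univ.filter (fun c => π c = v), h' c ≤ h v)
    (hg : ∀ c, g (π c) ≤ g' c) : Win G' g' h' := by
  refine ⟨fun g' h' => ∃ g h, Win G g h ∧
    (∀ v, ∑ c ∈ univ.filter (fun c => π c = v), h' c ≤ h v) ∧ (∀ c, g (π c) ≤ g' c), ?_,
    g, h, W, hh, hg⟩
  rintro g' h' ⟨g, h, W, hh, hg⟩
  have hle : ∀ c, h' c ≤ h (π c) := fun c =>
    le_trans (single_le_sum (f := h') (fun _ _ => Nat.zero_le _) (by simp)) (hh (π c))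
  refine ⟨fun c hc => lt_of_lt_of_le (W.pos _ (lt_of_lt_of_le hc (hle c))) (hg c), ?_⟩
  intro M hM
  obtain ⟨I, hI, hind, hW⟩ := W.step (M.image π) (by
    intro v hv
    obtain ⟨c, hc, rfl⟩ := mem_image.1 hv
    exact lt_of_lt_of_le (hM c hc) (hle c))
  obtain ⟨u, hu, hinj, himg⟩ := Finset.exists_subset_injOn_image_eq_of_surjOn (f := π)
    (↑M : Set V') I (by
      intro v hv
      have := hI hv
      obtain ⟨c, hc, rfl⟩ := mem_image.1 this
      exact ⟨c, hc, rfl⟩)
  refine ⟨u, hu, ?_, _, _, hW, ?_, ?_⟩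
  · intro c hc d hd hcd hadj'
    rcases hadj c d hadj' with h1 | h1
    · exact hcd (hinj hc hd h1)
    · have hc' : π c ∈ I := himg ▸ mem_image_of_mem π hc
      have hd' : π d ∈ I := himg ▸ mem_image_of_mem π hd
      exact hind hc' hd' h1.ne h1
  · intro v
    by_cases hv : v ∈ I
    · rw [dec_of_mem hv]
      rw [← himg] at hv
      obtain ⟨c, hc, hcv⟩ := mem_image.1 hv
      have hlt : ∑ c ∈ univ.filter (fun c => π c = v), dec h' u c <
          ∑ c ∈ univ.filter (fun c => π c = v), h' c := by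
        refine sum_lt_sum (fun i _ => dec_le _ _ _) ⟨c, by simp [hcv], ?_⟩
        rw [dec_of_mem hc]
        have := hM c (hu hc)
        omega
      have := hh v
      omega
    · rw [dec_of_not_mem hv]
      exact le_trans (sum_le_sum (fun i _ => dec_le _ _ _)) (hh v)
  · intro c
    have := hg c
    by_cases hc : c ∈ M
    · rw [dec_of_mem hc, dec_of_mem (mem_image_of_mem π hc)]; omega
    · rw [dec_of_not_mem hc]
      exact le_trans (dec_le _ _ _) this

/-- grouped kernel lemma -/
lemma win_of_kernel (G : SimpleGraph V) (π : V' → V) (E : V' → V' → Prop) [DecidableRel E]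
    (hE : ∀ c, E c c)
    (hker : ∀ M : Finset V', ∃ K ⊆ M, (∀ c ∈ K, ∀ d ∈ K, c ≠ d → π c ≠ π d ∧ ¬ G.Adj (π c) (π d)) ∧
      ∀ c ∈ M, ∃ d ∈ K, E c d)
    {g h : V → ℕ} (h' : V' → ℕ)
    (hh : ∀ v, h v ≤ ∑ c ∈ univ.filter (fun c => π c = v), h' c)
    (hg : ∀ c, 0 < h' c → ∑ d ∈ univ.filter (fun d => E c d), h' d ≤ g (π c)) : Win G g h := by
  refine ⟨fun g h => ∃ h' : V' → ℕ, (∀ v, h v ≤ ∑ c ∈ univ.filter (fun c => π c = v), h' c) ∧
    (∀ c, 0 < h' c → ∑ d ∈ univ.filter (fun d => E c d), h' d ≤ g (π c)), ?_, h', hh, hg⟩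
  rintro g h ⟨h', hh, hg⟩
  have hex : ∀ v, 0 < h v → ∃ c, π c = v ∧ 0 < h' c := by
    intro v hv
    by_contra hc
    push Not at hc
    have : ∑ c ∈ univ.filter (fun c => π c = v), h' c = 0 :=
      sum_eq_zero (fun c hc' => by have := hc c (by simpa using hc'); omega)
    have := hh v
    omega
  refine ⟨?_, ?_⟩
  · intro v hv
    obtain ⟨c, rfl, hc⟩ := hex v hv
    have h1 : h' c ≤ ∑ d ∈ univ.filter (fun d => E c d), h' d :=
      single_le_sum (f := h') (fun _ _ => Nat.zero_le _) (by simp [hE])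
    have := hg c hc
    omega
  intro M hM
  obtain ⟨K, hK, hind, habs⟩ := hker (univ.filter (fun c => π c ∈ M ∧ 0 < h' c))
  have hKM : ∀ c ∈ K, π c ∈ M ∧ 0 < h' c := fun c hc => by simpa using hK hc
  refine ⟨K.image π, ?_, ?_, dec h' K, ?_, ?_⟩
  · intro v hv
    obtain ⟨c, hc, rfl⟩ := mem_image.1 hv
    exact (hKM c hc).1
  · intro u hu v hv huv hadj
    obtain ⟨c, hc, rfl⟩ := mem_image.1 hu
    obtain ⟨d, hd, rfl⟩ := mem_image.1 hv
    exact (hind c hc d hd (fun e => huv (by rw [e]))).2 hadj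
  · intro v
    by_cases hv : v ∈ K.image π
    · rw [dec_of_mem hv]
      obtain ⟨c, hc, hcv⟩ := mem_image.1 hv
      have hmem : c ∈ univ.filter (fun c => π c = v) := by simp [hcv]
      have h1 := hh v
      rw [← add_sum_erase _ _ hmem] at h1 ⊢
      have h2 : ∑ x ∈ (univ.filter (fun c => π c = v)).erase c, dec h' K x =
          ∑ x ∈ (univ.filter (fun c => π c = v)).erase c, h' x := by
        refine sum_congr rfl (fun d hd => dec_of_not_mem (fun hdK => ?_))
        have hd1 := (mem_erase.1 hd).1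
        have hd2 : π d = v := by simpa using (mem_erase.1 hd).2
        exact (hind d hdK c hc hd1).1 (by rw [hd2, hcv])
      rw [h2, dec_of_mem hc]
      omega
    · rw [dec_of_not_mem hv]
      refine le_trans (hh v) (le_of_eq (sum_congr rfl (fun d hd => (dec_of_not_mem (fun hdK => ?_)).symm)))
      have hd2 : π d = v := by simpa using hd
      exact hv (hd2 ▸ mem_image_of_mem π hdK)
  · intro c hc
    have hc' : 0 < h' c := lt_of_lt_of_le hc (dec_le _ _ _)
    have h1 := hg c hc'
    by_cases hm : π c ∈ M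
    · rw [dec_of_mem hm]
      obtain ⟨d, hd, hcd⟩ := habs c (by simp [hm, hc'])
      have hlt : ∑ d ∈ univ.filter (fun d => E c d), dec h' K d <
          ∑ d ∈ univ.filter (fun d => E c d), h' d := by
        refine sum_lt_sum (fun i _ => dec_le _ _ _) ⟨d, by simp [hcd], ?_⟩
        rw [dec_of_mem hd]
        have := (hKM d hd).2
        omega
      omega
    · rw [dec_of_not_mem hm]
      exact le_trans (sum_le_sum (fun i _ => dec_le _ _ _)) h1

end Proj

end Pool.Agent.MP_242484_co

end MrgPart0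

-- ======== part 1: formerly Pool.Agent.MP_242484_co.Join
section MrgPart1

set_option autoImplicit false

namespace Pool.Agent.MP_242484_co

open Finset

section Join
variable {V W U : Type}

/-- `G1` together with the vertices `j w` of `G2`; the vertex `i` of `G2` is replaced by the set `B` -/
def glue (G1 : SimpleGraph V) (B : Finset V) (G2 : SimpleGraph U) (j : W → U) (i : U) :
    SimpleGraph (V ⊕ W) where
  Adj x y := match x, y with
    | Sum.inl u, Sum.inl v => G1.Adj u v
    | Sum.inr u, Sum.inr v => G2.Adj (j u) (j v)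
    | Sum.inl u, Sum.inr v => u ∈ B ∧ G2.Adj i (j v)
    | Sum.inr u, Sum.inl v => v ∈ B ∧ G2.Adj i (j u)
  symm := ⟨by
    rintro (u | u) (v | v) h
    · exact G1.symm.symm _ _ h
    · exact h
    · exact h
    · exact G2.symm.symm _ _ h⟩
  loopless := ⟨by
    rintro (u | u) h
    · exact G1.loopless.irrefl u h
    · exact G2.loopless.irrefl _ h⟩

variable [DecidableEq V] [DecidableEq W] [DecidableEq U]

lemma Win.join {G1 : SimpleGraph V} (B : Finset V) {G2 : SimpleGraph U} (j : W → U) (i : U)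
    (hj : Function.Injective j) (hi : ∀ w, j w ≠ i)
    {g1 h1 : V → ℕ} {g2 h2 : U → ℕ} (W1 : Win G1 g1 h1) (W2 : Win G2 g2 h2)
    {g h : V ⊕ W → ℕ} (hB : ∑ u ∈ B, h1 u ≤ h2 i)
    (hg1 : ∀ u, g1 u + (if u ∈ B then g2 i - h2 i else 0) ≤ g (Sum.inl u))
    (hg2 : ∀ w, g2 (j w) ≤ g (Sum.inr w))
    (hh1 : ∀ u, h (Sum.inl u) ≤ h1 u) (hh2 : ∀ w, h (Sum.inr w) ≤ h2 (j w)) :
    Win (glue G1 B G2 j i) g h := by
  classical
  refine ⟨fun g h => ∃ g1 h1 g2 h2, Win G1 g1 h1 ∧ Win G2 g2 h2 ∧ (∑ u ∈ B, h1 u ≤ h2 i) ∧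
    (∀ u, g1 u + (if u ∈ B then g2 i - h2 i else 0) ≤ g (Sum.inl u)) ∧
    (∀ w, g2 (j w) ≤ g (Sum.inr w)) ∧ (∀ u, h (Sum.inl u) ≤ h1 u) ∧
    (∀ w, h (Sum.inr w) ≤ h2 (j w)), ?_, g1, h1, g2, h2, W1, W2, hB, hg1, hg2, hh1, hh2⟩
  rintro g h ⟨g1, h1, g2, h2, W1, W2, hB, hg1, hg2, hh1, hh2⟩
  refine ⟨?_, ?_⟩
  · rintro (u | w) hv
    · have := W1.pos u (lt_of_lt_of_le hv (hh1 u))
      have := hg1 u
      omega
    · exact lt_of_lt_of_le (W2.pos _ (lt_of_lt_of_le hv (hh2 w))) (hg2 w)
  intro M hM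
  have hM1 : ∀ u ∈ M.toLeft, 0 < h1 u := fun u hu =>
    lt_of_lt_of_le (hM _ (mem_toLeft.1 hu)) (hh1 u)
  have hM2 : ∀ v ∈ M.toRight.image j, 0 < h2 v := by
    intro v hv
    obtain ⟨w, hw, rfl⟩ := mem_image.1 hv
    exact lt_of_lt_of_le (hM _ (mem_toRight.1 hw)) (hh2 w)
  have hiM : i ∉ M.toRight.image j := by
    intro hc
    obtain ⟨w, -, hw⟩ := mem_image.1 hc
    exact hi w hw
  have hjM : ∀ w, j w ∈ M.toRight.image j ↔ Sum.inr w ∈ M := by
    intro w
    rw [hj.mem_finset_image, mem_toRight]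
  -- a general way to finish a round
  have finish : ∀ (M1 I1 : Finset V) (M2 I2 J2 : Finset U), M1 ⊆ M.toLeft → I1 ⊆ M1 →
      G1.IsIndepSet (↑I1 : Set V) → Win G1 (dec g1 M1) (dec h1 I1) →
      G2.IsIndepSet (↑I2 : Set U) → (∀ w, j w ∈ M2 ↔ Sum.inr w ∈ M) → I2 ⊆ M2 →
      (∀ w, j w ∈ J2 ↔ j w ∈ I2) → Win G2 (dec g2 M2) (dec h2 J2) →
      (∀ u ∈ I1, u ∈ B → ∀ w, j w ∈ I2 → ¬ G2.Adj i (j w)) →
      (∑ u ∈ B, dec h1 I1 u ≤ dec h2 J2 i) →
      (∀ u, dec g1 M1 u + (if u ∈ B then dec g2 M2 i - dec h2 J2 i else 0) ≤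
        dec g M (Sum.inl u)) →
      ∃ I ⊆ M, (glue G1 B G2 j i).IsIndepSet (↑I : Set (V ⊕ W)) ∧
        ∃ g1 h1 g2 h2, Win G1 g1 h1 ∧ Win G2 g2 h2 ∧ (∑ u ∈ B, h1 u ≤ h2 i) ∧
        (∀ u, g1 u + (if u ∈ B then g2 i - h2 i else 0) ≤ dec g M (Sum.inl u)) ∧
        (∀ w, g2 (j w) ≤ dec g M (Sum.inr w)) ∧ (∀ u, dec h I (Sum.inl u) ≤ h1 u) ∧
        (∀ w, dec h I (Sum.inr w) ≤ h2 (j w)) := by
    intro M1 I1 M2 I2 J2 hM1' hI1 hind1 hW1 hind2 hM2' hI2 hJ2 hW2 hcross hsum hgl
    refine ⟨I1.disjSum (M.toRight.filter (fun w => j w ∈ I2)), ?_, ?_, _, _, _, _, hW1, hW2, hsum,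
      hgl, ?_, ?_, ?_⟩
    · rintro (u | w) hx
      · exact mem_toLeft.1 (hM1' (hI1 (by simpa using hx)))
      · have : Sum.inr w ∈ M ∧ j w ∈ I2 := by simpa using hx
        exact this.1
    · rintro (u | u) hu (v | v) hv huv hadj
      · exact hind1 (by simpa using hu) (by simpa using hv) (fun e => huv (by rw [e])) hadj
      · have hv' : Sum.inr v ∈ M ∧ j v ∈ I2 := by simpa using hv
        exact hcross u (by simpa using hu) hadj.1 v hv'.2 hadj.2
      · have hu' : Sum.inr u ∈ M ∧ j u ∈ I2 := by simpa using hu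
        exact hcross v (by simpa using hv) hadj.1 u hu'.2 hadj.2
      · have hu' : Sum.inr u ∈ M ∧ j u ∈ I2 := by simpa using hu
        have hv' : Sum.inr v ∈ M ∧ j v ∈ I2 := by simpa using hv
        exact hind2 hu'.2 hv'.2 (G2.ne_of_adj hadj) hadj
    · intro w
      have := hg2 w
      by_cases hw : Sum.inr w ∈ M
      · rw [dec_of_mem hw, dec_of_mem ((hM2' w).2 hw)]; omega
      · rw [dec_of_not_mem hw, dec_of_not_mem (fun hc => hw ((hM2' w).1 hc))]; exact this
    · intro u
      have := hh1 u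
      by_cases hu : u ∈ I1
      · rw [dec_of_mem hu, dec_of_mem (by simpa using hu)]; omega
      · rw [dec_of_not_mem hu, dec_of_not_mem (by simpa using hu)]; exact this
    · intro w
      have := hh2 w
      by_cases hw : j w ∈ I2
      · rw [dec_of_mem ((hJ2 w).2 hw), dec_of_mem (by simp [hw, (hM2' w).1 (hI2 hw)])]; omega
      · rw [dec_of_not_mem (fun hc => hw ((hJ2 w).1 hc)), dec_of_not_mem (by simp [hw])]
        exact this
  obtain ⟨I1, hI1, hind1, hW1⟩ := W1.step _ hM1
  by_cases hc : ∃ u ∈ I1, u ∈ B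
  · obtain ⟨u0, hu0, hu0B⟩ := hc
    have hpos : 0 < h2 i := by
      have h3 : h1 u0 ≤ ∑ u ∈ B, h1 u := single_le_sum (f := h1) (fun _ _ => Nat.zero_le _) hu0B
      have := hM1 u0 (hI1 hu0)
      omega
    obtain ⟨I2, hI2, hind2, hW2⟩ := W2.step (insert i (M.toRight.image j)) (by
      intro v hv
      rcases mem_insert.1 hv with rfl | hv
      · exact hpos
      · exact hM2 v hv)
    have hM2' : ∀ w, j w ∈ insert i (M.toRight.image j) ↔ Sum.inr w ∈ M := by
      intro w
      rw [mem_insert, hjM]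
      exact ⟨fun h => h.resolve_left (hi w), Or.inr⟩
    by_cases hb : ∃ w, j w ∈ I2 ∧ G2.Adj i (j w)
    · obtain ⟨w0, hw0, hadj0⟩ := hb
      have hiI : i ∉ I2 := fun hc => hind2 hc hw0 hadj0.ne hadj0
      have hle := hW2.le i
      rw [dec_of_not_mem hiI, dec_of_mem (mem_insert_self _ _)] at hle
      obtain ⟨I1', hI1', hind1', hW1'⟩ := W1.step (M.toLeft \ B)
        (fun u hu => hM1 u (mem_sdiff.1 hu).1)
      refine finish (M.toLeft \ B) I1' _ I2 I2 sdiff_subset hI1' hind1' hW1' hind2 hM2' hI2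
        (fun _ => Iff.rfl) hW2 ?_ ?_ ?_
      · intro u hu huB
        exact absurd huB (mem_sdiff.1 (hI1' hu)).2
      · rw [dec_of_not_mem hiI]
        exact le_trans (sum_le_sum (fun _ _ => dec_le _ _ _)) hB
      · intro u
        have := hg1 u
        rw [dec_of_not_mem hiI, dec_of_mem (mem_insert_self _ _)]
        by_cases huB : u ∈ B
        · rw [if_pos huB] at this ⊢
          rw [dec_of_not_mem (fun hc => (mem_sdiff.1 hc).2 huB)]
          have := le_dec g M (Sum.inl u)
          omega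
        · rw [if_neg huB] at this ⊢
          by_cases hu : Sum.inl u ∈ M
          · rw [dec_of_mem hu, dec_of_mem (mem_sdiff.2 ⟨mem_toLeft.2 hu, huB⟩)]; omega
          · rw [dec_of_not_mem hu, dec_of_not_mem (fun hc => hu (mem_toLeft.1 (mem_sdiff.1 hc).1))]
            exact this
    · push Not at hb
      have hW2' : Win G2 (dec g2 (insert i (M.toRight.image j))) (dec h2 (insert i I2)) := by
        refine hW2.mono (fun v => ?_) (fun _ _ => le_rfl)
        by_cases hv : v ∈ I2
        · rw [dec_of_mem hv, dec_of_mem (mem_insert_of_mem hv)]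
        · rw [dec_of_not_mem hv]; exact dec_le _ _ _
      refine finish M.toLeft I1 _ I2 (insert i I2) subset_rfl hI1 hind1 hW1 hind2 hM2' hI2
        (fun w => by rw [mem_insert]; exact ⟨fun h => h.resolve_left (hi w), Or.inr⟩) hW2'
        (fun _ _ _ w hw => hb w hw) ?_ ?_
      · rw [dec_of_mem (mem_insert_self _ _)]
        have hlt : ∑ u ∈ B, dec h1 I1 u < ∑ u ∈ B, h1 u := by
          refine sum_lt_sum (fun _ _ => dec_le _ _ _) ⟨u0, hu0B, ?_⟩
          rw [dec_of_mem hu0]
          have := hM1 u0 (hI1 hu0)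
          omega
        omega
      · intro u
        have := hg1 u
        rw [dec_of_mem (mem_insert_self _ _), dec_of_mem (mem_insert_self _ _)]
        by_cases hu : Sum.inl u ∈ M
        · rw [dec_of_mem hu, dec_of_mem (mem_toLeft.2 hu)]
          have := W1.pos u (hM1 u (mem_toLeft.2 hu))
          split_ifs at * <;> omega
        · rw [dec_of_not_mem hu, dec_of_not_mem (fun hc => hu (mem_toLeft.1 hc))]
          split_ifs at * <;> omega
  · push Not at hc
    obtain ⟨I2, hI2, hind2, hW2⟩ := W2.step _ hM2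
    have hiI : i ∉ I2 := fun h => hiM (hI2 h)
    refine finish M.toLeft I1 _ I2 I2 subset_rfl hI1 hind1 hW1 hind2 hjM hI2
      (fun _ => Iff.rfl) hW2 (fun u hu huB => absurd huB (hc u hu)) ?_ ?_
    · rw [dec_of_not_mem hiI]
      exact le_trans (sum_le_sum (fun _ _ => dec_le _ _ _)) hB
    · intro u
      have := hg1 u
      rw [dec_of_not_mem hiI, dec_of_not_mem hiM]
      by_cases hu : Sum.inl u ∈ M
      · rw [dec_of_mem hu, dec_of_mem (mem_toLeft.2 hu)]
        have := W1.pos u (hM1 u (mem_toLeft.2 hu))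
        split_ifs at * <;> omega
      · rw [dec_of_not_mem hu, dec_of_not_mem (fun hc => hu (mem_toLeft.1 hc))]
        exact this

end Join

end Pool.Agent.MP_242484_co

end MrgPart1

-- ======== part 2: formerly Pool.Agent.MP_242484_co.Leaf
section MrgPart2

set_option autoImplicit false

namespace Pool.Agent.MP_242484_co

open Finset

section Leaf
variable {V : Type}

/-- a new vertex `none` joined to `p` only -/
def addLeaf (G : SimpleGraph V) (p : V) : SimpleGraph (Option V) where
  Adj x y := match x, y with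
    | some u, some v => G.Adj u v
    | none, some v => v = p
    | some u, none => u = p
    | none, none => False
  symm := ⟨by
    rintro (_ | u) (_ | v) h
    · exact h
    · exact h
    · exact h
    · exact G.symm.symm _ _ h⟩
  loopless := ⟨by
    rintro (_ | u) h
    · exact h
    · exact G.loopless.irrefl u h⟩

variable [DecidableEq V]

lemma Win.leaf {G : SimpleGraph V} (p v : V) (hpv : G.Adj p v) (hp : ∀ u, G.Adj p u → u = v)
    {g0 h0 : V → ℕ} (W : Win G g0 h0) {g h : Option V → ℕ}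
    (hg : ∀ u, u ≠ p → g0 u ≤ g (some u)) (hh : ∀ u, u ≠ p → h (some u) ≤ h0 u)
    (hn : h none ≤ g none) (h1 : h (some p) + h none ≤ h0 p + g none)
    (h2 : g0 p + g none ≤ g (some p)) (h3 : h0 v + h (some p) ≤ g (some p)) :
    Win (addLeaf G p) g h := by
  classical
  refine ⟨fun g h => ∃ g0 h0, Win G g0 h0 ∧ (∀ u, u ≠ p → g0 u ≤ g (some u)) ∧
    (∀ u, u ≠ p → h (some u) ≤ h0 u) ∧ h none ≤ g none ∧ (h (some p) = 0 ∨
      (h (some p) + h none ≤ h0 p + g none ∧ (0 < h0 p → g0 p + g none ≤ g (some p)) ∧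
        (h0 v + h (some p) ≤ g (some p) ∨ g none = h none))), ?_,
    g0, h0, W, hg, hh, hn, Or.inr ⟨h1, fun _ => h2, Or.inl h3⟩⟩
  rintro g h ⟨g0, h0, W, hg, hh, hn, hinv⟩
  have hvp : v ≠ p := hpv.ne.symm
  refine ⟨?_, ?_⟩
  · rintro (_ | u) hu
    · omega
    · by_cases hup : u = p
      · subst hup
        have := W.le u
        omega
      · exact lt_of_lt_of_le (W.pos u (lt_of_lt_of_le hu (hh u hup))) (hg u hup)
  intro M hM
  have finish : ∀ (M0 I0 J0 : Finset V) (X : Finset (Option V)),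
      (∀ u, u ≠ p → (u ∈ M0 ↔ some u ∈ M)) → I0 ⊆ M0 → G.IsIndepSet (↑I0 : Set V) →
      (∀ u, u ≠ p → (u ∈ J0 ↔ u ∈ I0)) → Win G (dec g0 M0) (dec h0 J0) →
      X ⊆ M → (X = ∅ ∨ X = {none} ∨ (X = {some p} ∧ v ∉ I0)) →
      dec h X none ≤ dec g M none →
      (dec h X (some p) = 0 ∨
        (dec h X (some p) + dec h X none ≤ dec h0 J0 p + dec g M none ∧
          (0 < dec h0 J0 p → dec g0 M0 p + dec g M none ≤ dec g M (some p)) ∧
          (dec h0 J0 v + dec h X (some p) ≤ dec g M (some p) ∨ dec g M none = dec h X none))) →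
      ∃ I ⊆ M, (addLeaf G p).IsIndepSet (↑I : Set (Option V)) ∧
        ∃ g0 h0, Win G g0 h0 ∧ (∀ u, u ≠ p → g0 u ≤ dec g M (some u)) ∧
        (∀ u, u ≠ p → dec h I (some u) ≤ h0 u) ∧ dec h I none ≤ dec g M none ∧
        (dec h I (some p) = 0 ∨
          (dec h I (some p) + dec h I none ≤ h0 p + dec g M none ∧
          (0 < h0 p → g0 p + dec g M none ≤ dec g M (some p)) ∧
          (h0 v + dec h I (some p) ≤ dec g M (some p) ∨ dec g M none = dec h I none))) := by
    intro M0 I0 J0 X hM0 hI0 hind hJ0 hW hX hXc hn' hinv'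
    have hmem : ∀ u, u ≠ p → (some u ∈ (I0.erase p).image some ∪ X ↔ u ∈ I0) := by
      intro u hu
      rcases hXc with rfl | rfl | ⟨rfl, -⟩ <;> simp [hu]
    have hmp : some p ∈ (I0.erase p).image some ∪ X ↔ some p ∈ X := by simp
    have hmn : none ∈ (I0.erase p).image some ∪ X ↔ none ∈ X := by simp
    have ep : dec h ((I0.erase p).image some ∪ X) (some p) = dec h X (some p) := by
      by_cases hx : some p ∈ X
      · rw [dec_of_mem hx, dec_of_mem (hmp.2 hx)]
      · rw [dec_of_not_mem hx, dec_of_not_mem (fun hc => hx (hmp.1 hc))]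
    have en : dec h ((I0.erase p).image some ∪ X) none = dec h X none := by
      by_cases hx : none ∈ X
      · rw [dec_of_mem hx, dec_of_mem (hmn.2 hx)]
      · rw [dec_of_not_mem hx, dec_of_not_mem (fun hc => hx (hmn.1 hc))]
    refine ⟨(I0.erase p).image some ∪ X, ?_, ?_, _, _, hW, ?_, ?_, ?_, ?_⟩
    · intro x hx
      rcases mem_union.1 hx with hx | hx
      · obtain ⟨u, hu, rfl⟩ := mem_image.1 hx
        exact (hM0 u (mem_erase.1 hu).1).1 (hI0 (mem_erase.1 hu).2)
      · exact hX hx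
    · have key : ∀ u, some p ∈ X → u ≠ p → u ∈ I0 → ¬ G.Adj p u := by
        intro u hx hup hu hadj
        rcases hXc with rfl | rfl | ⟨rfl, hv⟩
        · simp at hx
        · simp at hx
        · exact hv (hp u hadj ▸ hu)
      have key2 : ¬ (some p ∈ X ∧ none ∈ X) := by
        rcases hXc with rfl | rfl | ⟨rfl, -⟩ <;> simp
      rintro (_ | a) ha (_ | b) hb hab hadj
      · exact hadj
      · have : b = p := hadj
        subst this
        exact key2 ⟨hmp.1 hb, hmn.1 ha⟩
      · have : a = p := hadj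
        subst this
        exact key2 ⟨hmp.1 ha, hmn.1 hb⟩
      · have hadj' : G.Adj a b := hadj
        by_cases hap : a = p
        · subst hap
          exact key b (hmp.1 ha) hadj'.ne.symm ((hmem b hadj'.ne.symm).1 hb) hadj'
        · by_cases hbp : b = p
          · subst hbp
            exact key a (hmp.1 hb) hap ((hmem a hap).1 ha) hadj'.symm
          · exact hind ((hmem a hap).1 ha) ((hmem b hbp).1 hb) hadj'.ne hadj'
    · intro u hu
      have := hg u hu
      by_cases hm : some u ∈ M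
      · rw [dec_of_mem hm, dec_of_mem ((hM0 u hu).2 hm)]; omega
      · rw [dec_of_not_mem hm, dec_of_not_mem (fun hc => hm ((hM0 u hu).1 hc))]; exact this
    · intro u hu
      have := hh u hu
      by_cases hm : u ∈ I0
      · rw [dec_of_mem ((hmem u hu).2 hm), dec_of_mem ((hJ0 u hu).2 hm)]; omega
      · rw [dec_of_not_mem (fun hc => hm ((hmem u hu).1 hc)),
          dec_of_not_mem (fun hc => hm ((hJ0 u hu).1 hc))]
        exact this
    · rw [en]; exact hn'
    · rw [en, ep]; exact hinv'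
  have hM0 : ∀ u, u ≠ p → (u ∈ (M.eraseNone).erase p ↔ some u ∈ M) := by
    intro u hu; simp [hu]
  have hM0pos : ∀ u ∈ (M.eraseNone).erase p, 0 < h0 u := by
    intro u hu
    have hup := (mem_erase.1 hu).1
    exact lt_of_lt_of_le (hM _ ((hM0 u hup).1 hu)) (hh u hup)
  by_cases hR : some p ∈ M ∧ none ∉ M ∧ 0 < h0 p
  · obtain ⟨hpM, hnM, hpos⟩ := hR
    obtain ⟨I0, hI0, hind, hW⟩ := W.step (insert p ((M.eraseNone).erase p)) (by
      intro u hu
      rcases mem_insert.1 hu with rfl | hu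
      · exact hpos
      · exact hM0pos u hu)
    have hM0' : ∀ u, u ≠ p → (u ∈ insert p ((M.eraseNone).erase p) ↔ some u ∈ M) := by
      intro u hu; simp [hu]
    have hgp := W.pos p hpos
    have hhp := hM _ hpM
    by_cases hv : v ∈ I0
    · have hpI : p ∉ I0 := fun hc => hind hc hv hpv.ne hpv
      have hv0 : 0 < h0 v := hM0pos v (by
        have := hI0 hv
        rcases mem_insert.1 this with h | h
        · exact absurd h hvp
        · exact h)
      refine finish _ I0 I0 ∅ hM0' hI0 hind (fun _ _ => Iff.rfl) hW (empty_subset _) (Or.inl rfl)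
        ?_ ?_
      · rw [dec_of_not_mem (notMem_empty _), dec_of_not_mem hnM]; exact hn
      · rw [dec_of_not_mem (notMem_empty _), dec_of_not_mem (notMem_empty _), dec_of_not_mem hnM,
          dec_of_not_mem hpI, dec_of_mem (mem_insert_self _ _), dec_of_mem hpM, dec_of_mem hv]
        omega
    · have hW' : Win G (dec g0 (insert p ((M.eraseNone).erase p))) (dec h0 (insert p I0)) := by
        refine hW.mono (fun u => ?_) (fun _ _ => le_rfl)
        by_cases hu : u ∈ I0
        · rw [dec_of_mem hu, dec_of_mem (mem_insert_of_mem hu)]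
        · rw [dec_of_not_mem hu]; exact dec_le _ _ _
      refine finish _ I0 (insert p I0) {some p} hM0' hI0 hind (fun u hu => by simp [hu]) hW'
        (by simpa using hpM) (Or.inr (Or.inr ⟨rfl, hv⟩)) ?_ ?_
      · rw [dec_of_not_mem (by simp), dec_of_not_mem hnM]; exact hn
      · rw [dec_of_mem (mem_singleton_self _), dec_of_not_mem (M := {some p}) (v := none) (by simp),
          dec_of_not_mem hnM, dec_of_mem (mem_insert_self _ _), dec_of_mem (mem_insert_self _ _),
          dec_of_mem hpM, dec_of_not_mem (M := insert p I0) (v := v) (by simp [hv, hvp])]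
        omega
  · obtain ⟨I0, hI0, hind, hW⟩ := W.step _ hM0pos
    have hpM0 : p ∉ (M.eraseNone).erase p := notMem_erase _ _
    have hpI : p ∉ I0 := fun hc => hpM0 (hI0 hc)
    by_cases hc : some p ∈ M ∧ v ∉ I0 ∧ (none ∉ M ∨ h none < g none)
    · obtain ⟨hpM, hv, hor⟩ := hc
      have hhp := hM _ hpM
      refine finish _ I0 I0 {some p} hM0 hI0 hind (fun _ _ => Iff.rfl) hW
        (by simpa using hpM) (Or.inr (Or.inr ⟨rfl, hv⟩)) ?_ ?_
      · rw [dec_of_not_mem (by simp)]
        by_cases hnM : none ∈ M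
        · rw [dec_of_mem hnM]; have := hor.resolve_left (not_not.2 hnM); omega
        · rw [dec_of_not_mem hnM]; exact hn
      · rw [dec_of_mem (mem_singleton_self _), dec_of_not_mem (M := {some p}) (v := none) (by simp),
          dec_of_not_mem hpI, dec_of_not_mem hpM0, dec_of_mem hpM, dec_of_not_mem hv]
        by_cases hnM : none ∈ M
        · rw [dec_of_mem hnM]
          have := hor.resolve_left (not_not.2 hnM)
          omega
        · rw [dec_of_not_mem hnM]
          have : h0 p = 0 := by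
            by_contra h0p
            exact hR ⟨hpM, hnM, by omega⟩
          omega
    · by_cases hnM : none ∈ M
      · have hhn := hM _ hnM
        refine finish _ I0 I0 {none} hM0 hI0 hind (fun _ _ => Iff.rfl) hW
          (by simpa using hnM) (Or.inr (Or.inl rfl)) ?_ ?_
        · rw [dec_of_mem (mem_singleton_self _), dec_of_mem hnM]; omega
        · rw [dec_of_mem (mem_singleton_self _),
            dec_of_not_mem (M := {none}) (v := some p) (by simp),
            dec_of_not_mem hpI, dec_of_not_mem hpM0, dec_of_mem hnM]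
          by_cases hpM : some p ∈ M
          · rw [dec_of_mem hpM]
            by_cases hv : v ∈ I0
            · have hv0 := hM0pos v (hI0 hv)
              rw [dec_of_mem hv]
              omega
            · rw [dec_of_not_mem hv]
              have : ¬ h none < g none := fun hlt => hc ⟨hpM, hv, Or.inr hlt⟩
              omega
          · rw [dec_of_not_mem hpM]
            have := dec_le h0 I0 v
            omega
      · refine finish _ I0 I0 ∅ hM0 hI0 hind (fun _ _ => Iff.rfl) hW (empty_subset _) (Or.inl rfl)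
          ?_ ?_
        · rw [dec_of_not_mem (notMem_empty _), dec_of_not_mem hnM]; exact hn
        · rw [dec_of_not_mem (notMem_empty _), dec_of_not_mem (notMem_empty _), dec_of_not_mem hnM,
            dec_of_not_mem hpI, dec_of_not_mem hpM0]
          by_cases hpM : some p ∈ M
          · rw [dec_of_mem hpM]
            have hv : v ∈ I0 := by
              by_contra hv
              exact hc ⟨hpM, hv, Or.inl hnM⟩
            have hv0 := hM0pos v (hI0 hv)
            rw [dec_of_mem hv]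
            have : h0 p = 0 := by
              by_contra h0p
              exact hR ⟨hpM, hnM, by omega⟩
            have := hM _ hpM
            omega
          · rw [dec_of_not_mem hpM]
            have := dec_le h0 I0 v
            omega

end Leaf

end Pool.Agent.MP_242484_co

end MrgPart2

-- marker of a merged file
example : 731051 + 872486 = 731051 + 872486 := rfl
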