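import Mathlib.Tactic.Linarith.Frontend
import Mathlib.Algebra.BigOperators.Group.Finset.Piecewise
import Mathlib.Tactic.FinCases
import Mathlib.Data.Fin.VecNotation
import Mathlib.Algebra.CharP.Defs
import Mathlib.Algebra.Notation.Lemmas
import Mathlib.Data.Int.SuccPred
import Mathlib.Data.Int.ConditionallyCompleteOrder
import Mathlib.Data.Int.Star
import Mathlib.Algebra.Order.Ring.Star
import Mathlib.Tactic.Algebra.Basic

set_option autoImplicit false

namespace Pool.Agent.MP_242484_co

open Finset

/-- the type of a colour: membership in six sets -/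
structure Ty where
  p : Bool
  q : Bool
  f : Bool
  v : Bool
  g : Bool
  u : Bool
  deriving DecidableEq

/-- search for signs -/
def solve : List Ty → ℕ → ℕ → ℕ → ℕ → ℕ → ℕ → ℕ → Bool
  | [], n, a, b, c, d, e, f => Nat.ble n a && (Nat.ble n b && (Nat.ble n c &&
      (Nat.ble n d && (Nat.ble n e && Nat.ble n f))))
  | t :: ts, n, a, b, c, d, e, f =>
    cond (Nat.ble (a + b) (d + f))
    (solve ts (n + 1) (a + cond t.p 2 1) (b + cond t.q 2 1) (c + cond t.f 0 1)
        (d + cond t.v 0 1) (e + cond t.g 0 1) (f + cond t.u 0 1) ||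
      solve ts (n + 1) (a + cond t.p 0 1) (b + cond t.q 0 1) (c + cond t.f 2 1)
        (d + cond t.v 2 1) (e + cond t.g 2 1) (f + cond t.u 2 1))
    (solve ts (n + 1) (a + cond t.p 0 1) (b + cond t.q 0 1) (c + cond t.f 2 1)
        (d + cond t.v 2 1) (e + cond t.g 2 1) (f + cond t.u 2 1) ||
      solve ts (n + 1) (a + cond t.p 2 1) (b + cond t.q 2 1) (c + cond t.f 0 1)
        (d + cond t.v 0 1) (e + cond t.g 0 1) (f + cond t.u 0 1))

/-- same left type and smaller right type -/
def tle (s t : Ty) : Bool :=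
  (s.p == t.p) && ((s.q == t.q) && ((!s.f || t.f) && ((!s.v || t.v) &&
    ((!s.g || t.g) && (!s.u || t.u)))))

/-- run over all antichains -/
def chk : List Ty → List Ty → Bool
  | [], acc => solve acc 0 1 1 1 1 1 1
  | t :: ts, acc => chk ts acc && (acc.any (fun s => tle s t || tle t s) || chk ts (t :: acc))

/-- the types of colours lying in `P` or `Q` -/
def allTy : List Ty :=
  [(true, false), (false, true), (true, true)].flatMap fun pq =>
    [(false, false), (false, true), (true, true)].flatMap fun fv =>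
      [(false, false), (false, true), (true, true)].map fun gu =>
        ⟨pq.1, pq.2, fv.1, fv.2, gu.1, gu.2⟩

theorem chk_all : chk allTy [] = true := by decide +kernel

/-- signed membership vector of a type -/
def cp (k : Fin 6) (t : Ty) : ℤ :=
  ![cond t.p 1 0, cond t.q 1 0, cond t.f (-1) 0, cond t.v (-1) 0, cond t.g (-1) 0,
    cond t.u (-1) 0] k

/-- sign of a Boolean -/
def sg (b : Bool) : ℤ := cond b 1 (-1)

lemma solve_sound (l : List Ty) (hl : l.Nodup) (n a b c d e f : ℕ)
    (h : solve l n a b c d e f = true) :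
    ∃ σ : Ty → Bool, ∀ k : Fin 6, (n : ℤ) ≤ ((![a, b, c, d, e, f] k : ℕ) : ℤ) +
      (l.map fun t => sg (σ t) * cp k t).sum := by
  induction l generalizing n a b c d e f with
  | nil =>
    refine ⟨fun _ => true, fun k => ?_⟩
    simp only [solve, Bool.and_eq_true, Nat.ble_eq] at h
    fin_cases k <;> simp <;> omega
  | cons t ts ih =>
    rw [List.nodup_cons] at hl
    have key : ∀ (σ : Ty → Bool) (s : Bool) (k : Fin 6),
        ((t :: ts).map fun z => sg (Function.update σ t s z) * cp k z).sum =
          sg s * cp k t + (ts.map fun z => sg (σ z) * cp k z).sum := by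
      intro σ s k
      rw [List.map_cons, List.sum_cons, Function.update_self]
      congr 2
      refine List.map_congr_left (fun z hz => ?_)
      rw [Function.update_of_ne]
      rintro rfl
      exact hl.1 hz
    have h' : solve ts (n + 1) (a + cond t.p 2 1) (b + cond t.q 2 1) (c + cond t.f 0 1)
        (d + cond t.v 0 1) (e + cond t.g 0 1) (f + cond t.u 0 1) = true ∨
      solve ts (n + 1) (a + cond t.p 0 1) (b + cond t.q 0 1) (c + cond t.f 2 1)
        (d + cond t.v 2 1) (e + cond t.g 2 1) (f + cond t.u 2 1) = true := by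
      rw [solve] at h
      cases hc : Nat.ble (a + b) (d + f) <;> rw [hc] at h <;>
        simp only [cond_true, cond_false, Bool.or_eq_true] at h <;> tauto
    rcases h' with h' | h'
    · obtain ⟨σ, hσ⟩ := ih hl.2 _ _ _ _ _ _ _ h'
      refine ⟨Function.update σ t true, fun k => ?_⟩
      rw [key]
      have h1 := hσ k
      generalize (ts.map fun z => sg (σ z) * cp k z).sum = w at h1 ⊢
      obtain ⟨p, q, f', v, g, u⟩ := t
      fin_cases k
      · cases p <;> simp [sg, cp] at h1 ⊢ <;> omega
      · cases q <;> simp [sg, cp] at h1 ⊢ <;> omega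
      · cases f' <;> simp [sg, cp] at h1 ⊢ <;> omega
      · cases v <;> simp [sg, cp] at h1 ⊢ <;> omega
      · cases g <;> simp [sg, cp] at h1 ⊢ <;> omega
      · cases u <;> simp [sg, cp] at h1 ⊢ <;> omega
    · obtain ⟨σ, hσ⟩ := ih hl.2 _ _ _ _ _ _ _ h'
      refine ⟨Function.update σ t false, fun k => ?_⟩
      rw [key]
      have h1 := hσ k
      generalize (ts.map fun z => sg (σ z) * cp k z).sum = w at h1 ⊢
      obtain ⟨p, q, f', v, g, u⟩ := t
      fin_cases k
      · cases p <;> simp [sg, cp] at h1 ⊢ <;> omega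
      · cases q <;> simp [sg, cp] at h1 ⊢ <;> omega
      · cases f' <;> simp [sg, cp] at h1 ⊢ <;> omega
      · cases v <;> simp [sg, cp] at h1 ⊢ <;> omega
      · cases g <;> simp [sg, cp] at h1 ⊢ <;> omega
      · cases u <;> simp [sg, cp] at h1 ⊢ <;> omega

lemma chk_sound (ts acc : List Ty) (h : chk ts acc = true) (l : List Ty) (hl : l.Sublist ts)
    (hp : (l.reverse ++ acc).Pairwise (fun s t => tle s t = false ∧ tle t s = false)) :
    solve (l.reverse ++ acc) 0 1 1 1 1 1 1 = true := by
  induction ts generalizing acc l with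
  | nil =>
    rw [List.sublist_nil] at hl
    subst hl
    simpa [chk] using h
  | cons t ts ih =>
    rw [chk, Bool.and_eq_true, Bool.or_eq_true] at h
    cases hl with
    | cons _ hl' => exact ih acc h.1 l hl' hp
    | cons_cons _ hl' =>
      rename_i l'
      rw [List.reverse_cons, List.append_assoc, List.singleton_append] at hp ⊢
      rcases h.2 with h2 | h2
      · exfalso
        rw [List.any_eq_true] at h2
        obtain ⟨s, hs, h3⟩ := h2
        have h4 := (List.pairwise_cons.1 (List.pairwise_append.1 hp).2.1).1 s hs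
        simp [h4.1, h4.2] at h3
      · exact ih (t :: acc) h2 l' hl' hp

lemma allTy_nodup : allTy.Nodup := by decide

lemma tle_refl (t : Ty) : tle t t = true := by
  obtain ⟨p, q, f, v, g, u⟩ := t
  revert p q f v g u
  decide

lemma cp_le_of_tle (s t : Ty) (h : tle s t = true) (k : Fin 6) : cp k t ≤ cp k s := by
  obtain ⟨p, q, f, v, g, u⟩ := s
  obtain ⟨p', q', f', v', g', u'⟩ := t
  simp only [tle, Bool.and_eq_true, beq_iff_eq, Bool.or_eq_true, Bool.not_eq_true'] at h
  obtain ⟨rfl, rfl, h1, h2, h3, h4⟩ := h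
  fin_cases k
  · simp [cp]
  · simp [cp]
  · cases f <;> cases f' <;> simp_all [cp]
  · cases v <;> cases v' <;> simp_all [cp]
  · cases g <;> cases g' <;> simp_all [cp]
  · cases u <;> cases u' <;> simp_all [cp]

lemma cp_nonpos (t : Ty) (h1 : t.p = false) (h2 : t.q = false) (k : Fin 6) : cp k t ≤ 0 := by
  obtain ⟨p, q, f, v, g, u⟩ := t
  simp only at h1 h2
  subst h1 h2
  fin_cases k
  · simp [cp]
  · simp [cp]
  · cases f <;> simp [cp]
  · cases v <;> simp [cp]
  · cases g <;> simp [cp]
  · cases u <;> simp [cp]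

lemma core_abs (ty : ℕ → Ty)
    (hty : ∀ c, ((ty c).p = false ∧ (ty c).q = false) ∨ ty c ∈ allTy) (W : Finset ℕ) :
    ∃ σ : ℕ → Bool, ∀ k : Fin 6, -1 ≤ ∑ c ∈ W, sg (σ c) * cp k (ty c) := by
  induction W using Finset.strongInduction with
  | H W ih =>
    by_cases h1 : ∃ c ∈ W, (ty c).p = false ∧ (ty c).q = false
    · obtain ⟨c, hc, h1, h2⟩ := h1
      obtain ⟨σ, hσ⟩ := ih (W.erase c) (erase_ssubset hc)
      refine ⟨Function.update σ c false, fun k => ?_⟩
      rw [← add_sum_erase W _ hc, Function.update_self]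
      have e : ∑ z ∈ W.erase c, sg (Function.update σ c false z) * cp k (ty z) =
          ∑ z ∈ W.erase c, sg (σ z) * cp k (ty z) :=
        sum_congr rfl (fun z hz => by rw [Function.update_of_ne (ne_of_mem_erase hz)])
      rw [e]
      have := cp_nonpos _ h1 h2 k
      have := hσ k
      simp only [sg, cond_false] at *
      linarith
    by_cases h2 : ∃ c ∈ W, ∃ d ∈ W, c ≠ d ∧ tle (ty c) (ty d) = true
    · obtain ⟨c, hc, d, hd, hcd, h2⟩ := h2
      have hd' : d ∈ W.erase c := mem_erase.2 ⟨hcd.symm, hd⟩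
      obtain ⟨σ, hσ⟩ := ih ((W.erase c).erase d)
        (lt_of_le_of_lt (erase_subset _ _) (erase_ssubset hc))
      refine ⟨Function.update (Function.update σ d false) c true, fun k => ?_⟩
      rw [← add_sum_erase W _ hc, ← add_sum_erase _ _ hd', Function.update_self,
        Function.update_of_ne hcd.symm, Function.update_self]
      have e : ∑ z ∈ (W.erase c).erase d,
          sg (Function.update (Function.update σ d false) c true z) * cp k (ty z) =
          ∑ z ∈ (W.erase c).erase d, sg (σ z) * cp k (ty z) :=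
        sum_congr rfl (fun z hz => by
          rw [Function.update_of_ne (ne_of_mem_erase (mem_of_mem_erase hz)),
            Function.update_of_ne (ne_of_mem_erase hz)])
      rw [e]
      have := cp_le_of_tle _ _ h2 k
      have := hσ k
      simp only [sg, cond_false, cond_true] at *
      linarith
    push Not at h1 h2
    set T := allTy.filter (fun t => decide (t ∈ W.image ty)) with hT
    have hTn : T.reverse.Nodup := List.nodup_reverse.2 (allTy_nodup.filter _)
    have hTm : ∀ t, t ∈ T.reverse ↔ t ∈ W.image ty := by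
      intro t
      rw [List.mem_reverse, hT, List.mem_filter, decide_eq_true_iff]
      refine ⟨fun h => h.2, fun h => ⟨?_, h⟩⟩
      obtain ⟨c, hc, rfl⟩ := mem_image.1 h
      rcases hty c with h3 | h3
      · exact absurd h3.2 (h1 c hc h3.1)
      · exact h3
    have hp : (T.reverse ++ []).Pairwise (fun s t => tle s t = false ∧ tle t s = false) := by
      rw [List.append_nil]
      refine List.Pairwise.imp_of_mem ?_ hTn
      intro s t hs ht hst
      obtain ⟨c, hc, rfl⟩ := mem_image.1 ((hTm s).1 hs)
      obtain ⟨d, hd, rfl⟩ := mem_image.1 ((hTm t).1 ht)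
      have hcd : c ≠ d := by rintro rfl; exact hst rfl
      exact ⟨by simpa using h2 c hc d hd hcd, by simpa using h2 d hd c hc hcd.symm⟩
    have hs := chk_sound allTy [] chk_all T List.filter_sublist hp
    rw [List.append_nil] at hs
    obtain ⟨σ, hσ⟩ := solve_sound _ hTn _ _ _ _ _ _ _ hs
    refine ⟨fun c => σ (ty c), fun k => ?_⟩
    have h3 := hσ k
    have hinj : Set.InjOn ty W := by
      intro c hc d hd hcd
      by_contra hne
      exact h2 c hc d hd hne (by rw [hcd]; exact tle_refl _)
    rw [← List.sum_toFinset _ hTn, show T.reverse.toFinset = W.image ty from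
      (by ext t; rw [List.mem_toFinset, hTm]), sum_image hinj] at h3
    have h4 : (![1, 1, 1, 1, 1, 1] : Fin 6 → ℕ) k = 1 := by fin_cases k <;> rfl
    rw [h4] at h3
    push_cast at h3
    linarith

lemma sum_sg (W Z : Finset ℕ) (σ : ℕ → Bool) :
    ∑ c ∈ W, sg (σ c) * (if c ∈ Z then 1 else 0) =
      2 * ((W.filter (fun c => σ c = true) ∩ Z).card : ℤ) - ((W ∩ Z).card : ℤ) := by
  induction W using Finset.induction_on with
  | empty => simp
  | insert c W hc ih =>
    rw [sum_insert hc, ih, filter_insert]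
    have h1 : c ∉ W ∩ Z := fun h => hc (mem_inter.1 h).1
    have h2 : c ∉ W.filter (fun c => σ c = true) ∩ Z :=
      fun h => hc (mem_filter.1 (mem_inter.1 h).1).1
    by_cases hZ : c ∈ Z
    · cases hs : σ c
      · simp only [Bool.false_eq_true, if_false, if_pos hZ, sg, cond_false]
        rw [insert_inter_of_mem hZ, card_insert_of_notMem h1]
        push_cast
        ring
      · simp only [if_true, if_pos hZ, sg, cond_true]
        rw [insert_inter_of_mem hZ, insert_inter_of_mem hZ, card_insert_of_notMem h1,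
          card_insert_of_notMem h2]
        push_cast
        ring
    · cases hs : σ c
      · simp [hZ]
      · simp [hZ]

/-- balanced splitting of two sets and two chains -/
theorem core (P Q F V G U W : Finset ℕ) (hF : F ⊆ V) (hG : G ⊆ U) :
    ∃ S ⊆ W, (W ∩ P).card ≤ 2 * (S ∩ P).card + 1 ∧ (W ∩ Q).card ≤ 2 * (S ∩ Q).card + 1 ∧
      2 * (S ∩ F).card ≤ (W ∩ F).card + 1 ∧ 2 * (S ∩ V).card ≤ (W ∩ V).card + 1 ∧
      2 * (S ∩ G).card ≤ (W ∩ G).card + 1 ∧ 2 * (S ∩ U).card ≤ (W ∩ U).card + 1 := by
  obtain ⟨σ, hσ⟩ := core_abs (fun c => ⟨decide (c ∈ P), decide (c ∈ Q), decide (c ∈ F),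
    decide (c ∈ V), decide (c ∈ G), decide (c ∈ U)⟩) (by
      intro c
      have h1 := @hF c
      have h2 := @hG c
      by_cases c ∈ P <;> by_cases c ∈ Q <;> by_cases c ∈ F <;> by_cases c ∈ V <;>
        by_cases c ∈ G <;> by_cases c ∈ U <;> simp_all <;> decide) W
  refine ⟨W.filter (fun c => σ c = true), filter_subset _ _, ?_⟩
  have pos : ∀ (Z : Finset ℕ), -1 ≤ ∑ c ∈ W, sg (σ c) * cond (decide (c ∈ Z)) 1 0 →
      (W ∩ Z).card ≤ 2 * (W.filter (fun c => σ c = true) ∩ Z).card + 1 := by
    intro Z h
    have e := sum_sg W Z σ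
    simp only [Bool.cond_decide] at h
    omega
  have neg : ∀ (Z : Finset ℕ), -1 ≤ ∑ c ∈ W, sg (σ c) * cond (decide (c ∈ Z)) (-1) 0 →
      2 * (W.filter (fun c => σ c = true) ∩ Z).card ≤ (W ∩ Z).card + 1 := by
    intro Z h
    have e := sum_sg W Z σ
    have e2 : ∑ c ∈ W, sg (σ c) * cond (decide (c ∈ Z)) (-1) 0 =
        - ∑ c ∈ W, sg (σ c) * (if c ∈ Z then 1 else 0) := by
      rw [← sum_neg_distrib]
      refine sum_congr rfl (fun c _ => ?_)
      by_cases hc : c ∈ Z <;> simp [hc]
    omega
  exact ⟨pos P (hσ 0), pos Q (hσ 1), neg F (hσ 2), neg V (hσ 3), neg G (hσ 4), neg U (hσ 5)⟩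

/-- balanced splitting after forcing `L` into the set and `R` out of it -/
theorem force (P Q F V G U L R : Finset ℕ) (hF : F ⊆ V) (hG : G ⊆ U) (hLR : Disjoint L R) :
    ∃ S : Finset ℕ,
      P.card + (L ∩ P).card ≤ 2 * (S ∩ P).card + (R ∩ P).card + 1 ∧
      Q.card + (L ∩ Q).card ≤ 2 * (S ∩ Q).card + (R ∩ Q).card + 1 ∧
      2 * (S ∩ F).card + (R ∩ F).card ≤ F.card + (L ∩ F).card + 1 ∧
      2 * (S ∩ V).card + (R ∩ V).card ≤ V.card + (L ∩ V).card + 1 ∧
      2 * (S ∩ G).card + (R ∩ G).card ≤ G.card + (L ∩ G).card + 1 ∧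
      2 * (S ∩ U).card + (R ∩ U).card ≤ U.card + (L ∩ U).card + 1 := by
  set W := (P ∪ Q ∪ V ∪ U) \ (L ∪ R) with hW
  obtain ⟨S, hS, h1, h2, h3, h4, h5, h6⟩ := core P Q F V G U W hF hG
  have key : ∀ Z ⊆ P ∪ Q ∪ V ∪ U, ((L ∪ S) ∩ Z).card = (L ∩ Z).card + (S ∩ Z).card ∧
      Z.card = (W ∩ Z).card + (L ∩ Z).card + (R ∩ Z).card := by
    intro Z hZ
    constructor
    · rw [union_inter_distrib_right, card_union_of_disjoint]
      rw [disjoint_left]
      intro c hc hc'
      have := hS (mem_inter.1 hc').1
      simp only [hW, mem_sdiff, mem_union] at this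
      exact this.2 (Or.inl (mem_inter.1 hc).1)
    · rw [← card_union_of_disjoint, ← card_union_of_disjoint]
      · congr 1
        ext c
        have := @hZ c
        simp only [hW, mem_sdiff, mem_union, mem_inter] at this ⊢
        tauto
      · rw [disjoint_left]
        intro c hc hc'
        have : c ∈ L → c ∉ R := fun h => disjoint_left.1 hLR h
        simp only [hW, mem_sdiff, mem_union, mem_inter] at hc hc'
        tauto
      · rw [disjoint_left]
        intro c hc hc'
        simp only [hW, mem_sdiff, mem_union, mem_inter] at hc hc'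
        tauto
  have kP := key P (by intro c hc; simp [hc])
  have kQ := key Q (by intro c hc; simp [hc])
  have kF := key F (by intro c hc; simp [hF hc])
  have kV := key V (by intro c hc; simp [hc])
  have kG := key G (by intro c hc; simp [hG hc])
  have kU := key U (by intro c hc; simp [hc])
  refine ⟨L ∪ S, ?_⟩
  omega

end Pool.Agent.MP_242484_co
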