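import Mathlib.LinearAlgebra.Matrix.Notation
import Pool.Agent.MP_242484_co.Leaf

set_option autoImplicit false

namespace Pool.Agent.MP_242484_co

open Finset

/-- the path on `Fin n` -/
def Pa (n : ℕ) : SimpleGraph (Fin n) where
  Adj u v := u.val + 1 = v.val ∨ v.val + 1 = u.val
  symm := ⟨fun _ _ h => h.symm⟩
  loopless := ⟨fun u h => by omega⟩

instance (n : ℕ) : DecidableRel (Pa n).Adj := fun u v =>
  inferInstanceAs (Decidable (u.val + 1 = v.val ∨ v.val + 1 = u.val))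

lemma ker_of_bool {n m : ℕ} (π : Fin m → Fin n) (E : Fin m → Fin m → Prop)
    (ker : (Fin m → Bool) → Fin m → Bool)
    (H : ∀ s : Fin m → Bool, (∀ c, ker s c = true → s c = true) ∧
      (∀ c d, ker s c = true → ker s d = true → c ≠ d → π c ≠ π d ∧ ¬ (Pa n).Adj (π c) (π d)) ∧
      ∀ c, s c = true → ∃ d, ker s d = true ∧ E c d) :
    ∀ M : Finset (Fin m), ∃ K ⊆ M,
      (∀ c ∈ K, ∀ d ∈ K, c ≠ d → π c ≠ π d ∧ ¬ (Pa n).Adj (π c) (π d)) ∧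
      ∀ c ∈ M, ∃ d ∈ K, E c d := by
  intro M
  obtain ⟨h1, h2, h3⟩ := H (fun c => decide (c ∈ M))
  refine ⟨univ.filter (fun c => ker (fun c => decide (c ∈ M)) c = true), ?_, ?_, ?_⟩
  · intro c hc
    simpa using h1 c (by simpa using hc)
  · intro c hc d hd hcd
    exact h2 c d (by simpa using hc) (by simpa using hd) hcd
  · intro c hc
    obtain ⟨d, hd, hE⟩ := h3 c (by simpa using hc)
    exact ⟨d, by simpa using hd, hE⟩

/-! ### an edge -/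

lemma win_edge (g0 g1 h0 h1 : ℕ) (a0 : h0 + h1 ≤ g0) (a1 : h1 ≤ g1) :
    Win (Pa 2) ![g0, g1] ![h0, h1] := by
  refine win_of_kernel (Pa 2) (id : Fin 2 → Fin 2) (fun c d => c ≤ d) (fun c => le_rfl)
    (ker_of_bool id (fun c d => c ≤ d) (fun s => ![s 0 && !s 1, s 1]) (by decide)) ![h0, h1] ?_ ?_
  · intro v
    fin_cases v <;> simp [sum_filter]
  · intro c _
    fin_cases c <;> simp [sum_filter, Fin.sum_univ_two] <;> omega

/-! ### the path with four vertices -/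

def piJ : Fin 6 → Fin 4 := ![0, 1, 1, 2, 2, 3]

def arcJ (c d : Fin 6) : Bool :=
  (![![1, 1, 0, 0, 0, 0], ![0, 1, 1, 0, 1, 0], ![1, 1, 1, 0, 0, 0], ![0, 1, 1, 1, 1, 0],
     ![0, 0, 1, 1, 1, 1], ![0, 0, 0, 1, 0, 1]] : Fin 6 → Fin 6 → ℕ) c d = 1

def kerJf (m : Fin 6 → Bool) : Fin 6 → Bool :=
  let pX := m 0
  let pN := m 2 && !pX
  let pE := m 1 && !pN
  let p1 := m 3 && !pN && !pE
  let p2 := m 4 && !pN && !p1
  let in3 := m 5 && !p1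
  let in2 := (p1 || p2) && !in3
  let in1 := (pN || pE) && !in2
  let in0 := pX && !in1
  ![in0, in1 && pE, in1 && pN, in2 && p1, in2 && p2, in3]

def goodJ (s : Fin 6 → Bool) : Prop :=
  (∀ c, kerJf s c = true → s c = true) ∧
      (∀ c d, kerJf s c = true → kerJf s d = true → c ≠ d →
        piJ c ≠ piJ d ∧ ¬ (Pa 4).Adj (piJ c) (piJ d)) ∧
      ∀ c, s c = true → ∃ d, kerJf s d = true ∧ arcJ c d = true

instance (s : Fin 6 → Bool) : Decidable (goodJ s) := by unfold goodJ; infer_instance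

lemma goodJ_all : ∀ a0 a1 a2 a3 a4 a5 : Bool, goodJ ![a0, a1, a2, a3, a4, a5] := by
  decide +kernel

lemma kerJ : ∀ M : Finset (Fin 6), ∃ K ⊆ M,
    (∀ c ∈ K, ∀ d ∈ K, c ≠ d → piJ c ≠ piJ d ∧ ¬ (Pa 4).Adj (piJ c) (piJ d)) ∧
      ∀ c ∈ M, ∃ d ∈ K, arcJ c d = true := by
  refine ker_of_bool piJ (fun c d => arcJ c d = true) kerJf (fun s => ?_)
  have h := goodJ_all (s 0) (s 1) (s 2) (s 3) (s 4) (s 5)
  have e : ![s 0, s 1, s 2, s 3, s 4, s 5] = s := by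
    funext i
    fin_cases i <;> rfl
  rw [e] at h
  exact h

lemma win_J (gX ga gi gy hX ha hi hy e n g1 g2 : ℕ) (a1 : ha ≤ e + n) (a2 : hi ≤ g1 + g2)
    (b0 : hX + e ≤ gX) (b1 : e + n + g2 ≤ ga) (b2 : e + n + hX ≤ ga) (b3 : g1 + g2 + e + n ≤ gi)
    (b4 : g1 + g2 + n + hy ≤ gi) (b5 : hy + g1 ≤ gy) :
    Win (Pa 4) ![gX, ga, gi, gy] ![hX, ha, hi, hy] := by
  refine win_of_kernel (Pa 4) piJ (fun c d => arcJ c d = true) (by decide)
    kerJ ![hX, e, n, g1, g2, hy] ?_ ?_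
  · intro v
    fin_cases v <;> simp [sum_filter, Fin.sum_univ_succ, piJ] <;> omega
  · intro c _
    fin_cases c <;> simp [sum_filter, Fin.sum_univ_succ, piJ, arcJ] <;> omega

/-! ### the path with six vertices -/

def piT : Fin 11 → Fin 6 := ![0, 1, 1, 2, 2, 2, 3, 3, 4, 4, 5]

def arcT (c d : Fin 11) : Bool :=
  (![![1, 1, 0, 0, 0, 0, 0, 0, 0, 0, 0],
     ![0, 1, 1, 1, 1, 0, 0, 0, 0, 0, 0],
     ![1, 1, 1, 1, 0, 0, 0, 0, 0, 0, 0],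
     ![0, 0, 0, 1, 1, 1, 1, 1, 0, 0, 0],
     ![0, 0, 1, 1, 1, 1, 0, 1, 0, 0, 0],
     ![0, 1, 1, 1, 1, 1, 0, 0, 0, 0, 0],
     ![0, 0, 0, 0, 1, 1, 1, 1, 0, 0, 0],
     ![0, 0, 0, 0, 0, 1, 1, 1, 0, 1, 0],
     ![0, 0, 0, 0, 0, 0, 1, 1, 1, 1, 0],
     ![0, 0, 0, 0, 0, 0, 1, 0, 1, 1, 1],
     ![0, 0, 0, 0, 0, 0, 0, 0, 1, 0, 1]] : Fin 11 → Fin 11 → ℕ) c d = 1

def chkT (a0 a1 a2 a3 a4 a5 a6 a7 a8 a9 a10 k0 k1 k2 k3 k4 k5 k6 k7 k8 k9 k10 : Bool) : Bool :=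
  (!k0 || a0) && (!k1 || a1) && (!k2 || a2) && (!k3 || a3) && (!k4 || a4) && (!k5 || a5) &&
  (!k6 || a6) && (!k7 || a7) && (!k8 || a8) && (!k9 || a9) && (!k10 || a10) && (!k0 || !k1) &&
  (!k0 || !k2) && (!k1 || !k2) && (!k1 || !k3) && (!k1 || !k4) && (!k1 || !k5) && (!k2 || !k3) &&
  (!k2 || !k4) && (!k2 || !k5) && (!k3 || !k4) && (!k3 || !k5) && (!k3 || !k6) && (!k3 || !k7) &&
  (!k4 || !k5) && (!k4 || !k6) && (!k4 || !k7) && (!k5 || !k6) && (!k5 || !k7) && (!k6 || !k7) &&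
  (!k6 || !k8) && (!k6 || !k9) && (!k7 || !k8) && (!k7 || !k9) && (!k8 || !k9) &&
  (!k8 || !k10) && (!k9 || !k10) && (!a0 || k0 || k1) && (!a1 || k1 || k2 || k3 || k4) &&
  (!a2 || k0 || k1 || k2 || k3) && (!a3 || k3 || k4 || k5 || k6 || k7) &&
  (!a4 || k2 || k3 || k4 || k5 || k7) && (!a5 || k1 || k2 || k3 || k4 || k5) &&
  (!a6 || k4 || k5 || k6 || k7) && (!a7 || k5 || k6 || k7 || k9) &&
  (!a8 || k6 || k7 || k8 || k9) && (!a9 || k6 || k8 || k9 || k10) && (!a10 || k8 || k10)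

def kerTf (m : Fin 11 → Bool) : Fin 11 → Bool :=
  let pX := m 0
  let pN := m 2 && !pX
  let pE := m 1 && !pN
  let p3 := m 5 && !pN && !pE
  let p2 := m 4 && !pN && !p3
  let p1 := m 3 && !p2 && !p3
  let qE := m 6 && !p3 && !p2
  let qN := m 7 && !p3 && !qE
  let rE := m 8 && !qE && !qN
  let rN := m 9 && !qE && !rE
  let in5 := m 10 && !rE
  let in4 := (rE || rN) && !in5
  let in3 := (qE || qN) && !in4
  let in2 := (p1 || p2 || p3) && !in3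
  let in1 := (pN || pE) && !in2
  let in0 := pX && !in1
  ![in0, in1 && pE, in1 && pN, in2 && p1, in2 && p2, in2 && p3, in3 && qE, in3 && qN,
    in4 && rE, in4 && rN, in5]

def goodT (s : Fin 11 → Bool) : Bool :=
  chkT (s 0) (s 1) (s 2) (s 3) (s 4) (s 5) (s 6) (s 7) (s 8) (s 9) (s 10)
    (kerTf s 0) (kerTf s 1) (kerTf s 2) (kerTf s 3) (kerTf s 4) (kerTf s 5)
    (kerTf s 6) (kerTf s 7) (kerTf s 8) (kerTf s 9) (kerTf s 10)

lemma goodT_all : ∀ a0 a1 a2 a3 a4 a5 a6 a7 a8 a9 a10 : Bool,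
    goodT ![a0, a1, a2, a3, a4, a5, a6, a7, a8, a9, a10] = true := by
  decide +kernel

lemma chkT_spec (s k : Fin 11 → Bool)
    (h : chkT (s 0) (s 1) (s 2) (s 3) (s 4) (s 5) (s 6) (s 7) (s 8) (s 9) (s 10)
      (k 0) (k 1) (k 2) (k 3) (k 4) (k 5) (k 6) (k 7) (k 8) (k 9) (k 10) = true) :
    (∀ c, k c = true → s c = true) ∧
      (∀ c d, k c = true → k d = true → c ≠ d →
        piT c ≠ piT d ∧ ¬ (Pa 6).Adj (piT c) (piT d)) ∧
      ∀ c, s c = true → ∃ d, k d = true ∧ arcT c d = true := by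
  simp only [chkT, Bool.and_eq_true, Bool.or_eq_true, Bool.not_eq_true'] at h
  refine ⟨?_, ?_, ?_⟩
  · intro c hc
    fin_cases c <;> simp_all
  · intro c d hc hd hcd
    fin_cases c <;> fin_cases d <;> first | (exact absurd rfl hcd) | decide | simp_all
  · intro c hc
    fin_cases c <;> simp [Fin.exists_fin_succ, arcT] <;> simp_all [or_assoc]

lemma kerT : ∀ M : Finset (Fin 11), ∃ K ⊆ M,
    (∀ c ∈ K, ∀ d ∈ K, c ≠ d → piT c ≠ piT d ∧ ¬ (Pa 6).Adj (piT c) (piT d)) ∧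
      ∀ c ∈ M, ∃ d ∈ K, arcT c d = true := by
  refine ker_of_bool piT (fun c d => arcT c d = true) kerTf (fun s => ?_)
  have h := goodT_all (s 0) (s 1) (s 2) (s 3) (s 4) (s 5) (s 6) (s 7) (s 8) (s 9) (s 10)
  have e : ![s 0, s 1, s 2, s 3, s 4, s 5, s 6, s 7, s 8, s 9, s 10] = s := by
    funext i
    fin_cases i <;> rfl
  rw [e] at h
  exact chkT_spec s (kerTf s) h

lemma win_T (g0 g1 g2 g3 g4 g5 h0 h1 h2 h3 h4 h5 e n k1 k2 k3 e' n' e1 n1 : ℕ)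
    (a1 : h1 ≤ e + n) (a2 : h2 ≤ k1 + k2 + k3) (a3 : h3 ≤ e' + n') (a4 : h4 ≤ e1 + n1)
    (b0 : h0 + e ≤ g0) (b1 : e + n + k1 + k2 ≤ g1) (b2 : h0 + e + n + k1 ≤ g1)
    (b3 : k1 + k2 + k3 + e' + n' ≤ g2) (b4 : n + k1 + k2 + k3 + n' ≤ g2)
    (b5 : e + n + k1 + k2 + k3 ≤ g2) (b6 : k2 + k3 + e' + n' ≤ g3) (b7 : k3 + e' + n' + n1 ≤ g3)
    (b8 : e' + n' + e1 + n1 ≤ g4) (b9 : e' + e1 + n1 + h5 ≤ g4) (b10 : e1 + h5 ≤ g5) :
    Win (Pa 6) ![g0, g1, g2, g3, g4, g5] ![h0, h1, h2, h3, h4, h5] := by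
  refine win_of_kernel (Pa 6) piT (fun c d => arcT c d = true) (by decide)
    kerT ![h0, e, n, k1, k2, k3, e', n', e1, n1, h5] ?_ ?_
  · intro v
    fin_cases v <;> simp [sum_filter, Fin.sum_univ_succ, piT] <;> omega
  · intro c _
    fin_cases c <;> simp [sum_filter, Fin.sum_univ_succ, piT, arcT] <;> omega

end Pool.Agent.MP_242484_co
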