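import Mathlib.Tactic.IntervalCases
import Mathlib.Algebra.Order.Archimedean.Real.Basic
import Mathlib.Data.Rat.Star
import Pool.Agent.MP_242484_co.OffCore
import Pool.Agent.MP_242484_co.Leaf
import Pool.Agent.MP_242484_co.Pieces

-- ======== part 0: formerly Pool.Agent.MP_242484_co.OffJunction
section MrgPart0

set_option autoImplicit false

namespace Pool.Agent.MP_242484_co

open Finset

lemma ci_le (A Z : Finset ℕ) : (A ∩ Z).card ≤ A.card := card_le_card inter_subset_left

lemma ci_union (A B Z : Finset ℕ) : ((A ∪ B) ∩ Z).card ≤ (A ∩ Z).card + (B ∩ Z).card := by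
  rw [union_inter_distrib_right]; exact card_union_le _ _

lemma ci_mono {A B : Finset ℕ} (h : A ⊆ B) (Z : Finset ℕ) : (A ∩ Z).card ≤ (B ∩ Z).card :=
  card_le_card (inter_subset_inter_right h)

lemma ci_mono' (A : Finset ℕ) {Z Z' : Finset ℕ} (h : Z ⊆ Z') : (A ∩ Z).card ≤ (A ∩ Z').card :=
  card_le_card (inter_subset_inter_left h)

lemma ci_sub {A Z : Finset ℕ} (h : A ⊆ Z) : (A ∩ Z).card = A.card := by
  rw [inter_eq_left.2 h]

lemma ci_disj {A Z : Finset ℕ} (h : Disjoint A Z) : (A ∩ Z).card = 0 := by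
  rw [disjoint_iff_inter_eq_empty.1 h, card_empty]

lemma ci_dunion {A B : Finset ℕ} (h : Disjoint A B) (Z : Finset ℕ) :
    ((A ∪ B) ∩ Z).card = (A ∩ Z).card + (B ∩ Z).card := by
  rw [union_inter_distrib_right, card_union_of_disjoint]
  exact h.mono inter_subset_left inter_subset_left

lemma cs_ge (A B : Finset ℕ) : A.card ≤ (A \ B).card + B.card := card_le_card_sdiff_add_card

lemma cs_ge2 (A B C : Finset ℕ) : A.card ≤ (A \ (B ∪ C)).card + B.card + C.card := by
  have := cs_ge A (B ∪ C)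
  have := card_union_le B C
  omega

/-- the conclusion of the junction lemma -/
def Split (P Q V U F G : Finset ℕ) (b x nu β1 β2 : ℕ) : Prop :=
  ∃ S : Finset ℕ, b + x ≤ (S ∩ P).card + nu ∧ b ≤ (S ∩ Q).card ∧ (S ∩ V).card ≤ b + x ∧
    (S ∩ U).card ≤ b + x ∧ (S ∩ F).card ≤ β1 ∧ (S ∩ G).card ≤ β2

/-- the junction statement -/
def JL (b x nu f1 β1 f2 β2 : ℕ) : Prop :=
  ∀ P Q V U F G : Finset ℕ, P.card = 2 * b + x → Q.card = 2 * b + x → V.card = 2 * b + x →
    U.card = 2 * b + x → F ⊆ V → F.card = f1 → G ⊆ U → G.card = f2 →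
    Split P Q V U F G b x nu β1 β2

lemma split_of_forced {P Q V U F G : Finset ℕ} {b x nu β1 β2 : ℕ} (hP : P.card = 2 * b + x)
    (hQ : Q.card = 2 * b + x) (hV : V.card = 2 * b + x) (hU : U.card = 2 * b + x)
    (hF : F ⊆ V) (hG : G ⊆ U) (L R : Finset ℕ) (hLR : Disjoint L R)
    (h1 : (R ∩ P).card + x ≤ (L ∩ P).card + 2 * nu) (h2 : (R ∩ Q).card ≤ (L ∩ Q).card + x)
    (h3 : (L ∩ V).card ≤ (R ∩ V).card + x) (h4 : (L ∩ U).card ≤ (R ∩ U).card + x)
    (h5 : F.card + (L ∩ F).card ≤ 2 * β1 + (R ∩ F).card)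
    (h6 : G.card + (L ∩ G).card ≤ 2 * β2 + (R ∩ G).card) :
    Split P Q V U F G b x nu β1 β2 := by
  obtain ⟨S, k1, k2, k3, k4, k5, k6⟩ := force P Q F V G U L R hF hG hLR
  refine ⟨S, ?_⟩
  omega

/-- the junction for an even step -/
theorem jl_even (b x nu nu' β : ℕ) (hx : x ≤ b) (hnu : nu ≤ x) (hnu' : nu' ≤ x)
    (h : b + nu' ≤ nu + 2 * β) : JL b x nu (b + nu') β b β := by
  intro P Q V U F G hP hQ hV hU hF hFc hG hGc
  obtain ⟨R1, hR1, cR1⟩ := exists_subset_card_eq (s := F) (n := nu) (by omega)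
  obtain ⟨R2, hR2, cR2⟩ := exists_subset_card_eq (s := G) (n := nu - nu') (by omega)
  obtain ⟨L1, hL1, cL1⟩ := exists_subset_card_eq (s := P \ (F ∪ G)) (n := x - nu')
    (by have := cs_ge2 P F G; omega)
  obtain ⟨L2, hL2, cL2⟩ := exists_subset_card_eq (s := Q \ (F ∪ G)) (n := 2 * nu - nu' - x)
    (by have := cs_ge2 Q F G; omega)
  obtain ⟨L3, hL3, cL3⟩ := exists_subset_card_eq (s := P \ (F ∪ (L1 ∪ R2))) (n := nu' - nu)
    (by have := cs_ge2 P F (L1 ∪ R2); have := card_union_le L1 R2; omega)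
  have m1 : ∀ c ∈ L1, c ∈ P ∧ c ∉ F ∧ c ∉ G := fun c hc => by simpa [not_or] using hL1 hc
  have m2 : ∀ c ∈ L2, c ∈ Q ∧ c ∉ F ∧ c ∉ G := fun c hc => by simpa [not_or] using hL2 hc
  have m3 : ∀ c ∈ L3, c ∈ P ∧ c ∉ F ∧ c ∉ L1 ∧ c ∉ R2 :=
    fun c hc => by simpa [not_or] using hL3 hc
  have d13 : Disjoint L1 L3 := disjoint_left.2 (fun c hc hc' => (m3 c hc').2.2.1 hc)
  have cL : (L1 ∪ L3 ∪ L2).card ≤ L1.card + L3.card + L2.card := by
    have := card_union_le (L1 ∪ L3) L2
    have := card_union_le L1 L3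
    omega
  have cR := card_union_le R1 R2
  have lP : L1.card + L3.card ≤ ((L1 ∪ L3 ∪ L2) ∩ P).card := by
    have h1 := ci_mono (subset_union_left (s₁ := L1 ∪ L3) (s₂ := L2)) P
    rw [ci_dunion d13, ci_sub (fun c hc => (m1 c hc).1), ci_sub (fun c hc => (m3 c hc).1)] at h1
    exact h1
  have lQ : L2.card ≤ ((L1 ∪ L3 ∪ L2) ∩ Q).card := by
    have h1 := ci_mono (subset_union_right (s₁ := L1 ∪ L3) (s₂ := L2)) Q
    rwa [ci_sub (fun c hc => (m2 c hc).1)] at h1
  have lF : ((L1 ∪ L3 ∪ L2) ∩ F).card = 0 := by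
    refine ci_disj (disjoint_left.2 (fun c hc hc' => ?_))
    simp only [mem_union] at hc
    rcases hc with (hc | hc) | hc
    · exact (m1 c hc).2.1 hc'
    · exact (m3 c hc).2.1 hc'
    · exact (m2 c hc).2.1 hc'
  have lG : ((L1 ∪ L3 ∪ L2) ∩ G).card ≤ L3.card := by
    refine card_le_card (fun c hc => ?_)
    have := m1 c; have := m2 c
    simp only [mem_union, mem_inter] at hc
    tauto
  have rF : R1.card ≤ ((R1 ∪ R2) ∩ F).card := by
    have h1 := ci_mono (subset_union_left (s₁ := R1) (s₂ := R2)) F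
    rwa [ci_sub hR1] at h1
  have rG : R2.card ≤ ((R1 ∪ R2) ∩ G).card := by
    have h1 := ci_mono (subset_union_right (s₁ := R1) (s₂ := R2)) G
    rwa [ci_sub hR2] at h1
  have rV := ci_mono' (R1 ∪ R2) hF
  have rU := ci_mono' (R1 ∪ R2) hG
  have rP := ci_le (R1 ∪ R2) P
  have rQ := ci_le (R1 ∪ R2) Q
  have lV := ci_le (L1 ∪ L3 ∪ L2) V
  have lU := ci_le (L1 ∪ L3 ∪ L2) U
  refine split_of_forced hP hQ hV hU hF hG (L1 ∪ L3 ∪ L2) (R1 ∪ R2) ?_ (by omega) (by omega)
    (by omega) (by omega) (by omega) (by omega)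
  refine disjoint_left.2 (fun c hc hc' => ?_)
  simp only [mem_union] at hc hc'
  rcases hc with (hc | hc) | hc <;> rcases hc' with hc' | hc'
  · exact (m1 c hc).2.1 (hR1 hc')
  · exact (m1 c hc).2.2 (hR2 hc')
  · exact (m3 c hc).2.1 (hR1 hc')
  · exact (m3 c hc).2.2.2 hc'
  · exact (m2 c hc).2.1 (hR1 hc')
  · exact (m2 c hc).2.2 (hR2 hc')

lemma ci_cover {N H K : Finset ℕ} (h : N ⊆ H ∪ K) :
    N.card + (N ∩ (H ∩ K)).card = (N ∩ H).card + (N ∩ K).card := by
  have h1 := card_union_add_card_inter (N ∩ H) (N ∩ K)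
  rw [← inter_union_distrib_left, inter_eq_left.2 h, ← inter_inter_distrib_left] at h1
  exact h1

lemma gain (H K P : Finset ℕ) (c : ℕ) (h : P.card + c ≤ H.card + K.card) :
    ∃ N ⊆ H ∪ K, N.card ≤ c ∧ (∀ z ∈ N, z ∈ P → z ∈ H ∧ z ∈ K) ∧
      (N ∩ P).card + c ≤ (N ∩ H).card + (N ∩ K).card := by
  set Γ := (H ∪ K).filter (fun z => z ∈ P → z ∈ H ∧ z ∈ K) with hΓ
  have mΓ : ∀ z, z ∈ Γ ↔ (z ∈ H ∨ z ∈ K) ∧ (z ∈ P → z ∈ H ∧ z ∈ K) := by
    intro z; simp [hΓ]
  rcases le_total c Γ.card with hc | hc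
  · obtain ⟨N, hN, cN⟩ := exists_subset_card_eq hc
    have h1 : N ⊆ H ∪ K := hN.trans (filter_subset _ _)
    have h2 : ∀ z ∈ N, z ∈ P → z ∈ H ∧ z ∈ K := fun z hz => ((mΓ z).1 (hN hz)).2
    refine ⟨N, h1, cN.le, h2, ?_⟩
    have h3 := ci_cover h1
    have h4 : (N ∩ P).card ≤ (N ∩ (H ∩ K)).card := by
      refine card_le_card (fun z hz => ?_)
      have := h2 z
      simp only [mem_inter] at hz ⊢
      tauto
    omega
  · refine ⟨Γ, filter_subset _ _, hc, fun z hz => ((mΓ z).1 hz).2, ?_⟩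
    have e1 := card_sdiff_add_card_inter H Γ
    have e2 := card_sdiff_add_card_inter K Γ
    have e3 := card_sdiff_add_card_inter P Γ
    rw [inter_comm] at e1 e2 e3
    have e4 : (H \ Γ).card + (K \ Γ).card ≤ (P \ Γ).card := by
      rw [← card_union_of_disjoint]
      · refine card_le_card (fun z hz => ?_)
        have := mΓ z
        simp only [mem_union, mem_sdiff] at hz ⊢
        tauto
      · refine disjoint_left.2 (fun z hz hz' => ?_)
        have := mΓ z
        simp only [mem_sdiff] at hz hz'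
        tauto
    omega

lemma gain_mono {N N' H K : Finset ℕ} (P : Finset ℕ) (h : N ⊆ N') (h' : N' ⊆ H ∪ K) :
    (N' ∩ P).card + (N ∩ H).card + (N ∩ K).card ≤
      (N ∩ P).card + (N' ∩ H).card + (N' ∩ K).card := by
  have e : N' = N ∪ (N' \ N) := (union_sdiff_of_subset h).symm
  have d : Disjoint N (N' \ N) := disjoint_sdiff
  have h1 := ci_dunion d P
  have h2 := ci_dunion d H
  have h3 := ci_dunion d K
  rw [← e] at h1 h2 h3
  have h4 := ci_cover (sdiff_subset.trans h' : N' \ N ⊆ H ∪ K)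
  have h5 := ci_le (N' \ N) P
  omega

lemma fill (H K R0 YH YK : Finset ℕ) (nu nu' : ℕ) (hR0 : R0 ⊆ H ∪ K)
    (d1 : Disjoint YH K) (d2 : Disjoint YK H) (d3 : Disjoint YH R0) (d4 : Disjoint YK R0)
    (d5 : Disjoint YH YK) (c1 : (R0 ∩ H).card - nu ≤ YH.card)
    (c2 : (R0 ∩ K).card + nu' - nu ≤ YK.card) (c3 : nu ≤ H.card) (c4 : nu ≤ K.card + nu') :
    ∃ L R : Finset ℕ, Disjoint L R ∧ R ⊆ H ∪ K ∧ L ⊆ YH ∪ YK ∧
      L.card = ((R0 ∩ H).card - nu) + ((R0 ∩ K).card + nu' - nu) ∧
      (L ∩ H).card ≤ (R0 ∩ H).card - nu ∧ (L ∩ K).card ≤ (R0 ∩ K).card + nu' - nu ∧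
      (R0 ∩ H).card + (nu - (R0 ∩ H).card) ≤ (R ∩ H).card ∧
      (R0 ∩ K).card + (nu - ((R0 ∩ K).card + nu')) ≤ (R ∩ K).card ∧
      R.card ≤ R0.card + (nu - (R0 ∩ H).card) + (nu - ((R0 ∩ K).card + nu')) ∧
      ∀ Z, (R ∩ Z).card ≤ (R0 ∩ Z).card + (nu - (R0 ∩ H).card) +
        (nu - ((R0 ∩ K).card + nu')) := by
  have e1 := card_sdiff_add_card_inter H R0
  have e2 := card_sdiff_add_card_inter K R0
  rw [inter_comm] at e1 e2
  obtain ⟨RH, hRH, cRH⟩ := exists_subset_card_eq (s := H \ R0) (n := nu - (R0 ∩ H).card)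
    (by omega)
  obtain ⟨RK, hRK, cRK⟩ := exists_subset_card_eq (s := K \ R0)
    (n := nu - ((R0 ∩ K).card + nu')) (by omega)
  obtain ⟨LH, hLH, cLH⟩ := exists_subset_card_eq (s := YH \ RH) (n := (R0 ∩ H).card - nu)
    (by have := cs_ge YH RH; omega)
  obtain ⟨LK, hLK, cLK⟩ := exists_subset_card_eq (s := YK \ RK)
    (n := (R0 ∩ K).card + nu' - nu) (by have := cs_ge YK RK; omega)
  have m1 : ∀ c ∈ RH, c ∈ H ∧ c ∉ R0 := fun c hc => by simpa using hRH hc
  have m2 : ∀ c ∈ RK, c ∈ K ∧ c ∉ R0 := fun c hc => by simpa using hRK hc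
  have m3 : ∀ c ∈ LH, c ∈ YH ∧ c ∉ RH := fun c hc => by simpa using hLH hc
  have m4 : ∀ c ∈ LK, c ∈ YK ∧ c ∉ RK := fun c hc => by simpa using hLK hc
  rw [disjoint_left] at d1 d2 d3 d4 d5
  refine ⟨LH ∪ LK, R0 ∪ RH ∪ RK, ?_, ?_, ?_, ?_, ?_, ?_, ?_, ?_, ?_, ?_⟩
  · refine disjoint_left.2 (fun c hc hc' => ?_)
    simp only [mem_union] at hc hc'
    rcases hc with hc | hc <;> rcases hc' with (hc' | hc') | hc'
    · exact d3 (m3 c hc).1 hc'
    · exact (m3 c hc).2 hc'
    · exact d1 (m3 c hc).1 (m2 c hc').1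
    · exact d4 (m4 c hc).1 hc'
    · exact d2 (m4 c hc).1 (m1 c hc').1
    · exact (m4 c hc).2 hc'
  · intro c hc
    have := m1 c; have := m2 c; have := @hR0 c
    simp only [mem_union] at hc this ⊢
    tauto
  · exact union_subset_union (fun c hc => (m3 c hc).1) (fun c hc => (m4 c hc).1)
  · rw [card_union_of_disjoint, cLH, cLK]
    exact disjoint_left.2 (fun c hc hc' => d5 (m3 c hc).1 (m4 c hc').1)
  · rw [← cLH]
    refine card_le_card (fun c hc => ?_)
    have := m4 c; have := @d2 c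
    simp only [mem_union, mem_inter] at hc
    tauto
  · rw [← cLK]
    refine card_le_card (fun c hc => ?_)
    have := m3 c; have := @d1 c
    simp only [mem_union, mem_inter] at hc
    tauto
  · have h1 := ci_mono (subset_union_left (s₁ := R0 ∪ RH) (s₂ := RK)) H
    rw [ci_dunion (disjoint_left.2 (fun c hc hc' => (m1 c hc').2 hc)),
      ci_sub (A := RH) (fun c hc => (m1 c hc).1)] at h1
    omega
  · have h1 := ci_mono (union_subset_union (subset_union_left (s₁ := R0) (s₂ := RH))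
      (Subset.refl RK)) K
    rw [ci_dunion (disjoint_left.2 (fun c hc hc' => (m2 c hc').2 hc)),
      ci_sub (A := RK) (fun c hc => (m2 c hc).1)] at h1
    omega
  · have := card_union_le (R0 ∪ RH) RK
    have := card_union_le R0 RH
    omega
  · intro Z
    have := ci_union (R0 ∪ RH) RK Z
    have := ci_union R0 RH Z
    have := ci_le RH Z
    have := ci_le RK Z
    omega

section Mirror

variable {P Q V U K H : Finset ℕ} {b x nu nu' c β : ℕ}

lemma mirror_one (hP : P.card = 2 * b + x) (hQ : Q.card = 2 * b + x) (hV : V.card = 2 * b + x)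
    (hU : U.card = 2 * b + x) (hK : K ⊆ V) (cK : K.card = b + x) (hH : H ⊆ U)
    (cH : H.card = b + c) (hc : c + nu' = x) (hx : 2 * x ≤ b) (hnu : nu ≤ x)
    (h : b + nu' ≤ nu + 2 * β + x) (hq : nu - nu' ≤ (Q \ (H ∪ K)).card) :
    Split P Q V U K H b x nu (β + x) (β + c) := by
  obtain ⟨N, hN, cN, mN, gN⟩ := gain H K P c (by omega)
  obtain ⟨YH, hYH, cYH⟩ := exists_subset_card_eq (s := P \ K) (n := x)
    (by have := cs_ge P K; omega)
  obtain ⟨E, hE, cE⟩ := exists_subset_card_eq hq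
  have m1 : ∀ z ∈ YH, z ∈ P ∧ z ∉ K := fun z hz => by simpa using hYH hz
  have m2 : ∀ z ∈ P \ (H ∪ YH), z ∈ P ∧ z ∉ H ∧ z ∉ YH := fun z hz => by simpa [not_or] using hz
  have m3 : ∀ z ∈ E, z ∈ Q ∧ z ∉ H ∧ z ∉ K := fun z hz => by simpa [not_or] using hE hz
  have gH := ci_le N H
  have gK := ci_le N K
  have gc := ci_cover hN
  obtain ⟨L, R, hLR, hR, hL, k1, k2, k3, k4, k5, k6, k7⟩ := fill H K N YH (P \ (H ∪ YH)) nu nu' hN
    (disjoint_left.2 (fun z hz => (m1 z hz).2)) (disjoint_left.2 (fun z hz => (m2 z hz).2.1))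
    (disjoint_left.2 (fun z hz hz' => (m1 z hz).2 (mN z hz' (m1 z hz).1).2))
    (disjoint_left.2 (fun z hz hz' => (m2 z hz).2.1 (mN z hz' (m2 z hz).1).1))
    (disjoint_left.2 (fun z hz hz' => (m2 z hz').2.2 hz)) (by omega)
    (by have := cs_ge2 P H YH; omega) (by omega) (by omega)
  have hLP : L ⊆ P := fun z hz => by
    rcases mem_union.1 (hL hz) with h1 | h1
    · exact (m1 z h1).1
    · exact (m2 z h1).1
  have lP : L.card ≤ ((L ∪ E) ∩ P).card := by
    have h1 := ci_mono (subset_union_left (s₁ := L) (s₂ := E)) P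
    rwa [ci_sub hLP] at h1
  have lQ : E.card ≤ ((L ∪ E) ∩ Q).card := by
    have h1 := ci_mono (subset_union_right (s₁ := L) (s₂ := E)) Q
    rwa [ci_sub (fun z hz => (m3 z hz).1)] at h1
  have lH := ci_union L E H
  rw [ci_disj (A := E) (disjoint_left.2 (fun z hz => (m3 z hz).2.1))] at lH
  have lK := ci_union L E K
  rw [ci_disj (A := E) (disjoint_left.2 (fun z hz => (m3 z hz).2.2))] at lK
  have lV := (ci_le (L ∪ E) V).trans (card_union_le L E)
  have lU := (ci_le (L ∪ E) U).trans (card_union_le L E)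
  have rV := ci_mono' R hK
  have rU := ci_mono' R hH
  have rP := k7 P
  have rQ := ci_le R Q
  refine split_of_forced hP hQ hV hU hK hH (L ∪ E) R ?_ ?_ ?_ ?_ ?_ ?_ ?_
  · refine disjoint_union_left.2 ⟨hLR, disjoint_left.2 (fun z hz hz' => ?_)⟩
    rcases mem_union.1 (hR hz') with h1 | h1
    · exact (m3 z hz).2.1 h1
    · exact (m3 z hz).2.2 h1
  · clear * - rP lP k1 gN hc
    omega
  · clear * - rQ lQ k6 cE cN gc hc hnu
    omega
  · clear * - lV rV k1 k5 cE gH cN hc
    omega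
  · clear * - lU rU k1 k4 cE gK cN hc hnu
    omega
  · clear * - lK k3 k5 cK h
    omega
  · clear * - lH k2 k4 cH h hc
    omega

lemma mirror_two (hP : P.card = 2 * b + x) (hQ : Q.card = 2 * b + x) (hV : V.card = 2 * b + x)
    (hU : U.card = 2 * b + x) (hK : K ⊆ V) (cK : K.card = b + x) (hH : H ⊆ U)
    (cH : H.card = b + c) (hc : c + nu' = x) (hnu : nu ≤ x) (hnn : nu' ≤ nu) (hx : x ≤ b)
    (h : b + nu' ≤ nu + 2 * β + x) (hp : c ≤ (P \ (H ∪ K)).card) :
    Split P Q V U K H b x nu (β + x) (β + c) := by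
  obtain ⟨N, hN, cN, -, gN⟩ := gain H K Q (2 * nu - nu' - x) (by omega)
  obtain ⟨E, hE, cE⟩ := exists_subset_card_eq hp
  have m3 : ∀ z ∈ E, z ∈ P ∧ z ∉ H ∧ z ∉ K := fun z hz => by simpa [not_or] using hE hz
  have gH := ci_le N H
  have gK := ci_le N K
  have gc := ci_cover hN
  obtain ⟨L, R, -, hR, -, -, -, -, k4, k5, k6, k7⟩ := fill H K N ∅ ∅ nu nu' hN
    (disjoint_empty_left _) (disjoint_empty_left _) (disjoint_empty_left _)
    (disjoint_empty_left _) (disjoint_empty_left _) (by rw [card_empty]; omega)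
    (by rw [card_empty]; omega) (by omega) (by omega)
  have lP := ci_sub (A := E) (Z := P) (fun z hz => (m3 z hz).1)
  have lH := ci_disj (A := E) (disjoint_left.2 (fun z hz => (m3 z hz).2.1))
  have lK := ci_disj (A := E) (disjoint_left.2 (fun z hz => (m3 z hz).2.2))
  have lV := ci_le E V
  have lU := ci_le E U
  have rP := ci_le R P
  have rQ := k7 Q
  refine split_of_forced hP hQ hV hU hK hH E R ?_ ?_ ?_ ?_ ?_ ?_ ?_
  · refine disjoint_left.2 (fun z hz hz' => ?_)
    rcases mem_union.1 (hR hz') with h1 | h1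
    · exact (m3 z hz).2.1 h1
    · exact (m3 z hz).2.2 h1
  · clear * - rP lP k6 gc cE gH gK cN hc hnu hnn
    omega
  · clear * - rQ gN gH gK cN hnu hnn
    omega
  · clear * - lV cE hc
    omega
  · clear * - lU cE hc
    omega
  · clear * - lK k5 cK h
    omega
  · clear * - lH k4 cH h hc
    omega

lemma both_big (P Q H K : Finset ℕ) :
    P.card + Q.card ≤ (P \ (H ∪ K)).card + (Q \ (H ∪ K)).card + 2 * H.card + K.card +
      ((P ∩ Q ∩ K) \ H).card := by
  have h1 : ∀ Z : Finset ℕ, Z.card ≤ (Z \ (H ∪ K)).card + H.card + ((Z ∩ K) \ H).card := by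
    intro Z
    refine le_trans (card_le_card (t := (Z \ (H ∪ K)) ∪ H ∪ ((Z ∩ K) \ H)) (fun z hz => ?_)) ?_
    · simp only [mem_union, mem_sdiff, mem_inter]
      tauto
    · exact (card_union_le _ _).trans (Nat.add_le_add_right (card_union_le _ _) _)
  have h2 := card_union_add_card_inter ((P ∩ K) \ H) ((Q ∩ K) \ H)
  have h3 : (((P ∩ K) \ H) ∪ ((Q ∩ K) \ H)).card ≤ K.card := by
    refine card_le_card (fun z hz => ?_)
    simp only [mem_union, mem_sdiff, mem_inter] at hz
    tauto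
  have h4 : (((P ∩ K) \ H) ∩ ((Q ∩ K) \ H)) = (P ∩ Q ∩ K) \ H := by
    ext z
    simp only [mem_sdiff, mem_inter]
    tauto
  rw [h4] at h2
  have := h1 P
  have := h1 Q
  omega

lemma mirror_three (hP : P.card = 2 * b + x) (hQ : Q.card = 2 * b + x)
    (hV : V.card = 2 * b + x) (hU : U.card = 2 * b + x) (hK : K ⊆ V) (cK : K.card = b + x)
    (hH : H ⊆ U) (cH : H.card = b + c) (hc : c + nu' = x) (hnu : nu ≤ x) (hnn : nu' ≤ nu)
    (hx : 3 * x + nu ≤ b + nu') (h : b + nu' ≤ nu + 2 * β + x)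
    (hp : (P \ (H ∪ K)).card ≤ c) (hq : (Q \ (H ∪ K)).card ≤ nu - nu') :
    Split P Q V U K H b x nu (β + x) (β + c) := by
  obtain ⟨N1, hN1, cN1, mN1, gN1⟩ := gain H K P c (by omega)
  obtain ⟨N2, hN2, cN2, mN2, gN2⟩ := gain H K Q (2 * nu - nu' - x) (by omega)
  have hN : N1 ∪ N2 ⊆ H ∪ K := union_subset hN1 hN2
  have g1 := gain_mono P (subset_union_left (s₁ := N1) (s₂ := N2)) hN
  have g2 := gain_mono Q (subset_union_right (s₁ := N1) (s₂ := N2)) hN
  have gH := (ci_le (N1 ∪ N2) H).trans (card_union_le N1 N2)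
  have gK := (ci_le (N1 ∪ N2) K).trans (card_union_le N1 N2)
  have b1 := both_big P Q H K
  have b2 := both_big P Q K H
  rw [union_comm K H] at b2
  have m1 : ∀ z ∈ (P ∩ Q ∩ H) \ K, z ∈ P ∧ z ∈ Q ∧ z ∈ H ∧ z ∉ K :=
    fun z hz => by simpa [and_assoc] using hz
  have m2 : ∀ z ∈ (P ∩ Q ∩ K) \ H, z ∈ P ∧ z ∈ Q ∧ z ∈ K ∧ z ∉ H :=
    fun z hz => by simpa [and_assoc] using hz
  obtain ⟨L, R, hLR, -, hL, k1, k2, k3, k4, k5, -, k7⟩ := fill H K (N1 ∪ N2) ((P ∩ Q ∩ H) \ K)
    ((P ∩ Q ∩ K) \ H) nu nu' hN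
    (disjoint_left.2 (fun z hz => (m1 z hz).2.2.2)) (disjoint_left.2 (fun z hz => (m2 z hz).2.2.2))
    (disjoint_left.2 (fun z hz hz' => by
      rcases mem_union.1 hz' with h1 | h1
      · exact (m1 z hz).2.2.2 (mN1 z h1 (m1 z hz).1).2
      · exact (m1 z hz).2.2.2 (mN2 z h1 (m1 z hz).2.1).2))
    (disjoint_left.2 (fun z hz hz' => by
      rcases mem_union.1 hz' with h1 | h1
      · exact (m2 z hz).2.2.2 (mN1 z h1 (m2 z hz).1).1
      · exact (m2 z hz).2.2.2 (mN2 z h1 (m2 z hz).2.1).1))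
    (disjoint_left.2 (fun z hz hz' => (m2 z hz').2.2.2 (m1 z hz).2.2.1))
    (by clear * - gH b2 hP hQ cK cH hc hnu hnn hx hp hq cN1 cN2; omega)
    (by clear * - gK b1 hP hQ cK cH hc hnu hnn hx hp hq cN1 cN2; omega) (by omega) (by omega)
  have lP : (L ∩ P).card = L.card := ci_sub (fun z hz => by
    rcases mem_union.1 (hL hz) with h1 | h1
    · exact (m1 z h1).1
    · exact (m2 z h1).1)
  have lQ : (L ∩ Q).card = L.card := ci_sub (fun z hz => by
    rcases mem_union.1 (hL hz) with h1 | h1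
    · exact (m1 z h1).2.1
    · exact (m2 z h1).2.1)
  have lV := ci_le L V
  have lU := ci_le L U
  have rV := ci_mono' R hK
  have rU := ci_mono' R hH
  have rP := k7 P
  have rQ := k7 Q
  refine split_of_forced hP hQ hV hU hK hH L R hLR ?_ ?_ ?_ ?_ ?_ ?_
  · clear * - rP lP k1 gN1 g1 hc
    omega
  · clear * - rQ lQ k1 gN2 g2
    omega
  · clear * - lV rV k1 k5 gH cN1 cN2 hc hnu hnn
    omega
  · clear * - lU rU k1 k4 gK cN1 cN2 hc hnu hnn
    omega
  · clear * - k3 k5 cK h
    omega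
  · clear * - k2 k4 cH h hc
    omega

/-- the junction for an odd step -/
theorem jl_odd (b x nu nu' c β : ℕ) (hx : x ≤ b) (hβ : x ≤ β) (hnu : nu ≤ x) (hc : c + nu' = x)
    (h : b + nu' ≤ nu + 2 * β + x) : JL b x nu (b + x) (β + x) (b + c) (β + c) := by
  intro P Q V U K H hP hQ hV hU hK cK hH cH
  rcases lt_or_ge b (2 * x) with hb | hb
  · obtain ⟨L, hL, cL⟩ := exists_subset_card_eq (s := P \ H) (n := x)
      (by have := cs_ge P H; omega)
    have lP := ci_sub (hL.trans sdiff_subset)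
    have lH := ci_disj (A := L) (Z := H) (disjoint_left.2 (fun z hz => (mem_sdiff.1 (hL hz)).2))
    have lV := ci_le L V
    have lU := ci_le L U
    have lK := ci_le L K
    refine split_of_forced hP hQ hV hU hK hH L ∅ (disjoint_empty_right _) ?_ ?_ ?_ ?_ ?_ ?_ <;>
      rw [empty_inter, card_empty] <;> omega
  have key : Split P Q V U K H b x (b + nu' - (2 * β + x)) (β + x) (β + c) := by
    rcases le_or_gt (b + nu' - (2 * β + x) - nu') (Q \ (H ∪ K)).card with hq | hq
    · exact mirror_one hP hQ hV hU hK cK hH cH hc hb (by omega) (by omega) hq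
    rcases le_or_gt c (P \ (H ∪ K)).card with hp | hp
    · exact mirror_two hP hQ hV hU hK cK hH cH hc (by omega) (by omega) hx (by omega) hp
    · exact mirror_three hP hQ hV hU hK cK hH cH hc (by omega) (by omega) (by omega) (by omega)
        hp.le hq.le
  obtain ⟨S, k1, k2⟩ := key
  exact ⟨S, by omega, k2⟩

end Mirror

end Pool.Agent.MP_242484_co

end MrgPart0

-- ======== part 1: formerly Pool.Agent.MP_242484_co.Chain
section MrgPart1

set_option autoImplicit false

namespace Pool.Agent.MP_242484_co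

open Finset

/-- a weighted graph with two terminals `X` (a leaf of weight `w`) and `y` -/
structure TG (w : ℕ) : Type 1 where
  V : Type
  fin : Fintype V
  deq : DecidableEq V
  G : SimpleGraph V
  X : V
  y : V
  v : V
  wt : V → ℕ
  adjXv : G.Adj X v
  leaf : ∀ u, G.Adj X u → u = v
  Xy : X ≠ y
  wX : wt X = w
  wy : wt y = 1
  wv : wt v = 1

attribute [instance] TG.fin TG.deq

variable {w : ℕ}

def TG.Phi (T : TG w) (a b r hX : ℕ) : Prop :=
  Win T.G (fun u => if u = T.X ∨ u = T.y then r else a) (fun u => if u = T.X then hX else T.wt u * b)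

def Col {V : Type} (G : SimpleGraph V) (wt : V → ℕ) (a b : ℕ) (C : V → Finset ℕ) : Prop :=
  (∀ u, C u ⊆ range a ∧ (C u).card = wt u * b) ∧ ∀ u v, G.Adj u v → Disjoint (C u) (C v)

def TG.Low (T : TG w) (N n : ℕ) : Prop :=
  ∀ a b C, Col T.G T.wt a b C →
    ((C T.X ∩ C T.y).card : ℤ) ≤ N * ((a : ℤ) - (w + 1) * b) - n * b

lemma card_add_le {A B : Finset ℕ} {a : ℕ} (hA : A ⊆ range a) (hB : B ⊆ range a)
    (h : Disjoint A B) : A.card + B.card ≤ a := by
  rw [← card_union_of_disjoint h]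
  simpa using card_le_card (union_subset hA hB)

/-! ### the base -/

def base (w : ℕ) : TG w where
  V := Fin 2
  fin := inferInstance
  deq := inferInstance
  G := Pa 2
  X := 0
  y := 1
  v := 1
  wt := ![w, 1]
  adjXv := by decide
  leaf := by decide
  Xy := by decide
  wX := rfl
  wy := rfl
  wv := rfl

lemma base_low : (base w).Low 0 0 := by
  intro a b C hC
  have := hC.2 (base w).X (base w).y (base w).adjXv
  rw [disjoint_iff_inter_eq_empty.1 this]
  simp

lemma base_up (a b r hX : ℕ) (h : hX + b ≤ r) : (base w).Phi a b r hX := by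
  refine (win_edge r r hX b h (by omega)).mono ?_ ?_
  · intro v
    fin_cases v <;> simp [base]
  · intro v _
    fin_cases v <;> simp [base]

/-! ### extending the leaf -/

def ext (T : TG w) : TG w where
  V := Option (Option T.V)
  fin := inferInstance
  deq := inferInstance
  G := addLeaf (addLeaf T.G T.X) none
  X := none
  y := some (some T.y)
  v := some none
  wt := fun u => match u with
    | none => w
    | some none => 1
    | some (some u) => T.wt u
  adjXv := rfl
  leaf := by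
    rintro (_ | u) h
    · exact h.elim
    · exact congrArg some h
  Xy := by simp
  wX := rfl
  wy := T.wy
  wv := rfl

lemma ext_low (T : TG w) (N n : ℕ) (h : T.Low N n) : (ext T).Low (N + 1) n := by
  intro a b C hC
  have h1 := h a b (fun u => C (some (some u))) ⟨fun u => hC.1 (some (some u)),
    fun u v huv => hC.2 (some (some u)) (some (some v)) huv⟩
  have hL := hC.1 (some none)
  have hX := hC.1 (some (some T.X))
  have hX' := hC.1 none
  have d1 := hC.2 (some none) (some (some T.X)) rfl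
  have d2 := hC.2 (some none) none rfl
  have e1 := card_add_le hL.1 (union_subset hX'.1 hX.1) (disjoint_union_right.2 ⟨d2, d1⟩)
  have e2 := card_sdiff_add_card (C none) (C (some (some T.X)))
  have e3 : (C none ∩ C (some (some T.y))).card ≤
      (C (some (some T.X)) ∩ C (some (some T.y))).card + (C none \ C (some (some T.X))).card := by
    refine le_trans (card_le_card ?_) (card_union_le _ _)
    intro c hc
    simp only [mem_inter, mem_union, mem_sdiff] at hc ⊢
    tauto
  have e4 : (C (some none)).card = b := by simpa [ext] using hL.2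
  have e5 : (C (some (some T.X))).card = w * b := by simpa [ext, T.wX] using hX.2
  change ((C none ∩ C (some (some T.y))).card : ℤ) ≤ _
  rw [e4, ← e2, e5] at e1
  push_cast
  zify at e1 e3
  nlinarith

lemma ext_up (T : TG w) (b x r hX h' : ℕ) (H : T.Phi ((w + 1) * b + x) b r hX)
    (h1 : r ≤ hX + b) (h2 : h' ≤ hX + x) (h3 : h' ≤ r) (h4 : r ≤ w * b + x) :
    (ext T).Phi ((w + 1) * b + x) b r h' := by
  have ea : (w + 1) * b = w * b + b := by ring
  have hvX : T.v ≠ T.X := T.adjXv.ne.symm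
  have W1 := H.leaf T.X T.v T.adjXv T.leaf
    (g := fun u => match u with
      | none => (w + 1) * b + x - r
      | some u => if u = T.y then r else (w + 1) * b + x)
    (h := fun u => match u with
      | none => b + h' - r
      | some u => T.wt u * b)
    (by intro u hu; simp [hu]) (by intro u hu; simp [hu]) (by dsimp only; omega)
    (by simp only [T.wX, if_true]; omega) (by simp [T.Xy]; omega)
    (by simp [hvX, T.wv, T.wX, T.Xy]; omega)
  refine W1.leaf none (some T.X) rfl ?_ ?_ ?_ ?_ ?_ ?_ ?_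
  · rintro (_ | u) h
    · exact h.elim
    · exact congrArg some h
  · rintro (_ | u) hu
    · exact absurd rfl hu
    · simp [ext]
  · rintro (_ | u) hu
    · exact absurd rfl hu
    · simp [ext]
  · simpa [ext] using h3
  · simp [ext]; omega
  · simp [ext]; omega
  · simp [ext, T.wX]; omega

def extN (T : TG w) : ℕ → TG w
  | 0 => T
  | s + 1 => ext (extN T s)

lemma extN_low (T : TG w) (N n s : ℕ) (h : T.Low N n) : (extN T s).Low (N + s) n := by
  induction s with
  | zero => exact h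
  | succ s ih => exact ext_low _ _ _ ih

lemma extN_up (T : TG w) (b x r hX s : ℕ) (H : T.Phi ((w + 1) * b + x) b r hX)
    (h0 : hX ≤ w * b) (h1 : r ≤ hX + b) (h3 : w * b ≤ r) (h4 : r ≤ w * b + x) (hx : x ≤ b) :
    (extN T s).Phi ((w + 1) * b + x) b r (min (w * b) (hX + s * x)) := by
  induction s with
  | zero =>
    have : min (w * b) (hX + 0 * x) = hX := by omega
    rw [this]; exact H
  | succ s ih =>
    have e : (s + 1) * x = s * x + x := by ring
    exact ext_up _ b x r _ _ ih (by omega) (by omega) (by omega) h4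

/-! ### junctions -/

lemma Phi_join {W U : Type} [DecidableEq W] [DecidableEq U] (T : TG w) {G2 : SimpleGraph U}
    (j : W → U) (i : U) (hj : Function.Injective j) (hi : ∀ u, j u ≠ i) (a b r : ℕ)
    (H : T.Phi a b r (w * b)) {g2 h2 : U → ℕ} (W2 : Win G2 g2 h2) (e1 : w * b + b ≤ h2 i)
    (e2 : r + (g2 i - h2 i) ≤ a) {g h : T.V ⊕ W → ℕ} (hg1 : ∀ u, g (Sum.inl u) = a)
    (hg2 : ∀ u, g2 (j u) ≤ g (Sum.inr u)) (hh1 : ∀ u, h (Sum.inl u) = T.wt u * b)
    (hh2 : ∀ u, h (Sum.inr u) ≤ h2 (j u)) :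
    Win (glue T.G {T.X, T.y} G2 j i) g h := by
  refine Win.join {T.X, T.y} j i hj hi H W2 ?_ ?_ hg2 ?_ hh2
  · rw [sum_pair T.Xy]
    simp [T.Xy.symm, T.wy, e1]
  · intro u
    rw [hg1]
    by_cases hu : u = T.X ∨ u = T.y
    · simp [hu, e2]
    · simp [hu]
  · intro u
    rw [hh1]
    by_cases hu : u = T.X
    · simp [hu, T.wX]
    · simp [hu]

lemma low_join {W U : Type} (T : TG w) {G2 : SimpleGraph U} (j : W → U) (i : U) (N n : ℕ)
    (h : T.Low N n) (wt : W → ℕ) (a b : ℕ) (C : T.V ⊕ W → Finset ℕ)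
    (hC : Col (glue T.G {T.X, T.y} G2 j i) (Sum.elim T.wt wt) a b C) (u v : W)
    (hu : G2.Adj i (j u)) (hv : G2.Adj i (j v)) :
    ((C (Sum.inr u) ∪ C (Sum.inr v)).card : ℤ) ≤ (N + 1) * ((a : ℤ) - (w + 1) * b) - n * b := by
  have h1 := h a b (fun u => C (Sum.inl u)) ⟨fun u => hC.1 (Sum.inl u),
    fun u v huv => hC.2 (Sum.inl u) (Sum.inl v) huv⟩
  have hX := hC.1 (Sum.inl T.X)
  have hy := hC.1 (Sum.inl T.y)
  have e1 := card_add_le (union_subset hX.1 hy.1)
    (union_subset (hC.1 (Sum.inr u)).1 (hC.1 (Sum.inr v)).1) (by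
      simp only [disjoint_union_left, disjoint_union_right]
      refine ⟨⟨hC.2 _ _ ⟨by simp, hu⟩, hC.2 _ _ ⟨by simp, hu⟩⟩,
        ⟨hC.2 _ _ ⟨by simp, hv⟩, hC.2 _ _ ⟨by simp, hv⟩⟩⟩)
  have e2 := card_union_add_card_inter (C (Sum.inl T.X)) (C (Sum.inl T.y))
  have e4 : (C (Sum.inl T.X)).card = w * b := by simpa [T.wX] using hX.2
  have e5 : (C (Sum.inl T.y)).card = b := by simpa [T.wy] using hy.2
  rw [e4, e5] at e2
  zify at e1 e2
  nlinarith

def jun (T : TG w) : TG w where
  V := T.V ⊕ Fin 3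
  fin := inferInstance
  deq := inferInstance
  G := glue T.G {T.X, T.y} (Pa 4) ![0, 1, 3] 2
  X := Sum.inr 0
  y := Sum.inr 2
  v := Sum.inr 1
  wt := Sum.elim T.wt ![w, 1, 1]
  adjXv := by change (Pa 4).Adj _ _; decide
  leaf := by
    rintro (u | u) h
    · exact absurd h.2 (by decide)
    · have h' : (Pa 4).Adj (![0, 1, 3] 0) (![0, 1, 3] u) := h
      revert h'
      fin_cases u <;> simp [Pa]
  Xy := by simp
  wX := rfl
  wy := rfl
  wv := rfl

lemma jun_low (T : TG w) (N n : ℕ) (h : T.Low N n) : (jun T).Low (N + 1) (n + 1) := by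
  intro a b C hC
  have e1 := low_join T ![0, 1, 3] (2 : Fin 4) N n h ![w, 1, 1] a b C hC 2 1 (by decide) (by decide)
  have d1 : Disjoint (C (Sum.inr 0)) (C (Sum.inr 1)) := hC.2 _ _ (jun T).adjXv
  have e2 := card_sdiff_add_card (C (Sum.inr 2)) (C (Sum.inr 1))
  have e3 : (C (Sum.inr 0) ∩ C (Sum.inr 2)).card ≤ (C (Sum.inr 2) \ C (Sum.inr 1)).card := by
    refine card_le_card ?_
    intro c hc
    simp only [mem_inter, mem_sdiff] at hc ⊢
    exact ⟨hc.2, disjoint_left.1 d1 hc.1⟩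
  have e4 : (C (Sum.inr 1)).card = b := by simpa [jun] using (hC.1 (Sum.inr 1)).2
  change ((C (Sum.inr 0) ∩ C (Sum.inr 2)).card : ℤ) ≤ _
  rw [← e2, e4] at e1
  push_cast at e1 ⊢
  zify at e3
  nlinarith

lemma jun_up (T : TG w) (b x nu r' hX : ℕ) (H : T.Phi ((w + 1) * b + x) b (w * b + x - nu) (w * b))
    (hw : 1 ≤ w) (hx : x ≤ b) (hnu : nu ≤ x) (h3 : w * b ≤ r') (h4 : r' ≤ w * b + x)
    (h5 : 2 * b ≤ r' + x) (h6 : hX + b ≤ r' + nu) (h7 : hX ≤ w * b) :
    (jun T).Phi ((w + 1) * b + x) b r' hX := by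
  have ea : (w + 1) * b = w * b + b := by ring
  have eb : b ≤ w * b := Nat.le_mul_of_pos_left b hw
  have W2 := win_J r' ((w + 1) * b + x) (w * b + 2 * b + nu) r' hX b (w * b + b) b (b - nu) nu
    (r' - b) (w * b + 2 * b - r') (by omega) (by omega) (by omega) (by omega) (by omega)
    (by omega) (by omega) (by omega)
  refine Phi_join T ![0, 1, 3] (2 : Fin 4) (by decide) (by decide) _ b _ H W2 (by simp)
    (by simp; omega) (by intro u; simp [jun]) ?_ (by intro u; simp [jun]) ?_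
  · intro u
    fin_cases u <;> simp [jun]
  · intro u
    fin_cases u <;> simp [jun]

def tee (T : TG w) : TG w where
  V := T.V ⊕ Fin 5
  fin := inferInstance
  deq := inferInstance
  G := glue T.G {T.X, T.y} (Pa 6) ![0, 1, 3, 4, 5] 2
  X := Sum.inr 0
  y := Sum.inr 4
  v := Sum.inr 1
  wt := Sum.elim T.wt ![w, 1, 1, w, 1]
  adjXv := by change (Pa 6).Adj _ _; decide
  leaf := by
    rintro (u | u) h
    · exact absurd h.2 (by decide)
    · have h' : (Pa 6).Adj (![0, 1, 3, 4, 5] 0) (![0, 1, 3, 4, 5] u) := h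
      revert h'
      fin_cases u <;> simp [Pa]
  Xy := by simp
  wX := rfl
  wy := rfl
  wv := rfl

lemma tee_low (T : TG w) (N n : ℕ) (h : T.Low N n) : (tee T).Low (N + 2) (n + 1) := by
  intro a b C hC
  have e1 := low_join T ![0, 1, 3, 4, 5] (2 : Fin 6) N n h ![w, 1, 1, w, 1] a b C hC 2 1
    (by decide) (by decide)
  have d1 : Disjoint (C (Sum.inr 0)) (C (Sum.inr 1)) := hC.2 _ _ (tee T).adjXv
  have d2 : Disjoint (C (Sum.inr 3)) (C (Sum.inr 4)) :=
    hC.2 (Sum.inr 3) (Sum.inr 4) (by change (Pa 6).Adj _ _; decide)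
  have d3 : Disjoint (C (Sum.inr 3)) (C (Sum.inr 2)) :=
    hC.2 (Sum.inr 3) (Sum.inr 2) (by change (Pa 6).Adj _ _; decide)
  have e2 := card_sdiff_add_card (C (Sum.inr 2)) (C (Sum.inr 1))
  have e2' := card_sdiff_add_card (C (Sum.inr 4)) (C (Sum.inr 2))
  have e3 : (C (Sum.inr 0) ∩ C (Sum.inr 4)).card ≤
      (C (Sum.inr 4) \ C (Sum.inr 2)).card + (C (Sum.inr 2) \ C (Sum.inr 1)).card := by
    refine le_trans (card_le_card ?_) (card_union_le _ _)
    intro c hc
    simp only [mem_inter, mem_sdiff, mem_union] at hc ⊢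
    have := disjoint_left.1 d1 hc.1
    tauto
  have e6 := card_add_le (hC.1 (Sum.inr 3)).1
    (union_subset (hC.1 (Sum.inr 4)).1 (hC.1 (Sum.inr 2)).1) (disjoint_union_right.2 ⟨d2, d3⟩)
  have e4 : (C (Sum.inr 1)).card = b := by simpa [tee] using (hC.1 (Sum.inr 1)).2
  have e5 : (C (Sum.inr 2)).card = b := by simpa [tee] using (hC.1 (Sum.inr 2)).2
  have e7 : (C (Sum.inr 3)).card = w * b := by simpa [tee] using (hC.1 (Sum.inr 3)).2
  change ((C (Sum.inr 0) ∩ C (Sum.inr 4)).card : ℤ) ≤ _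
  rw [← e2, e4] at e1
  rw [← e2', e5, e7] at e6
  push_cast at e1 ⊢
  zify at e3 e6
  nlinarith

lemma tee_up (T : TG 1) (b x nu nu' : ℕ)
    (H : T.Phi ((1 + 1) * b + x) b (1 * b + x - nu) (1 * b))
    (hx : x ≤ b) (hb : b ≤ 2 * x) (hnu : nu ≤ x) (hnu' : nu' ≤ x) (h6 : nu' + b ≤ nu + 2 * x) :
    (tee T).Phi ((1 + 1) * b + x) b (1 * b + x - nu') (1 * b) := by
  have W2 := win_T (b + x - nu') (2 * b + x) (3 * b + nu) (2 * b + x) (2 * b + x) (b + x - nu')
    b b (2 * b) b b b (x - nu') (b - (x - nu')) x b (b - x) x (b - x) (x - nu') (b - (x - nu'))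
    (by omega) (by omega) (by omega) (by omega) (by omega) (by omega) (by omega) (by omega)
    (by omega) (by omega) (by omega) (by omega) (by omega) (by omega) (by omega)
  refine Phi_join T ![0, 1, 3, 4, 5] (2 : Fin 6) (by decide) (by decide) _ b _ H W2 (by simp; omega)
    (by simp; omega) (by intro u; simp [tee]) ?_ (by intro u; simp [tee]) ?_
  · intro u
    fin_cases u <;> simp [tee]
  · intro u
    fin_cases u <;> simp [tee]

end Pool.Agent.MP_242484_co

end MrgPart1

-- ======== part 2: formerly Pool.Agent.MP_242484_co.Final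
section MrgPart2

set_option autoImplicit false

namespace Pool.Agent.MP_242484_co

open Finset

/-- `(a,b)`-choosability, as in the frozen statement -/
def Choosable {n : ℕ} (G : SimpleGraph (Fin n)) (a b : ℕ) : Prop :=
  ∀ L : Fin n → Finset ℕ, (∀ v, (L v).card = a) →
    ∃ C : Fin n → Finset ℕ, (∀ v, C v ⊆ L v ∧ (C v).card = b) ∧
      ∀ u v, G.Adj u v → Disjoint (C u) (C v)

/-- `(a,b)`-paintability, as in the frozen statement -/
def Paintable {n : ℕ} (G : SimpleGraph (Fin n)) (a b : ℕ) : Prop :=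
  ∀ W : (Fin n → ℕ) → (Fin n → ℕ) → Prop,
    (∀ g h : Fin n → ℕ, (∀ v, h v = 0) → W g h) →
    (∀ g h : Fin n → ℕ, (∀ v, h v ≤ g v) →
      (∀ M : Finset (Fin n), M.Nonempty → (∀ v ∈ M, 0 < h v) →
        ∃ I ⊆ M, G.IsIndepSet (↑I : Set (Fin n)) ∧
          W (fun v => if v ∈ M then g v - 1 else g v)
            (fun v => if v ∈ I then h v - 1 else h v)) →
      W g h) →
    W (fun _ => a) (fun _ => b)

lemma Win.paintable {n : ℕ} {G : SimpleGraph (Fin n)} {a b : ℕ}
    (H : Win G (fun _ => a) (fun _ => b)) : Paintable G a b := by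
  intro W _ hstep
  have key : ∀ (k : ℕ) (g h : Fin n → ℕ), ∑ v, g v = k → Win G g h → W g h := by
    intro k
    induction k using Nat.strong_induction_on with
    | _ k ih =>
      intro g h hk hW
      refine hstep g h hW.le (fun M hM hMh => ?_)
      obtain ⟨I, hI, hind, hW'⟩ := hW.step M hMh
      refine ⟨I, hI, hind, ih (∑ v, dec g M v) ?_ _ _ rfl hW'⟩
      obtain ⟨v, hv⟩ := hM
      rw [← hk]
      refine sum_lt_sum (fun i _ => dec_le _ _ _) ⟨v, mem_univ v, ?_⟩
      rw [dec_of_mem hv]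
      have := hW.pos v (hMh v hv)
      omega
  exact key _ _ _ rfl H

lemma Paintable.choosable {n : ℕ} {G : SimpleGraph (Fin n)} {a b : ℕ} (H : Paintable G a b) :
    Choosable G a b := by
  refine H (fun g h => ∀ L : Fin n → Finset ℕ, (∀ v, (L v).card = g v) →
    ∃ C : Fin n → Finset ℕ, (∀ v, C v ⊆ L v ∧ (C v).card = h v) ∧
      ∀ u v, G.Adj u v → Disjoint (C u) (C v)) ?_ ?_
  · intro g h h0 L _
    exact ⟨fun _ => ∅, fun v => ⟨empty_subset _, by simp [h0 v]⟩, fun _ _ _ => by simp⟩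
  · intro g h hle hstep L hL
    by_cases h0 : ∀ v, h v = 0
    · exact ⟨fun _ => ∅, fun v => ⟨empty_subset _, by simp [h0 v]⟩, fun _ _ _ => by simp⟩
    push Not at h0
    obtain ⟨v0, hv0⟩ := h0
    have hne : (L v0).Nonempty := by
      rw [← card_pos, hL]
      have := hle v0
      omega
    obtain ⟨c, hc⟩ := hne
    set M : Finset (Fin n) := univ.filter (fun v => c ∈ L v ∧ 0 < h v) with hM
    have hMm : ∀ v, v ∈ M ↔ c ∈ L v ∧ 0 < h v := by intro v; simp [hM]
    obtain ⟨I, hI, hind, hW⟩ := hstep M ⟨v0, (hMm v0).2 ⟨hc, by omega⟩⟩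
      (fun v hv => ((hMm v).1 hv).2)
    obtain ⟨C, hC, hdisj⟩ := hW (fun v => if v ∈ M then (L v).erase c else L v) (by
      intro v
      by_cases hv : v ∈ M
      · simp only [if_pos hv]
        rw [card_erase_of_mem ((hMm v).1 hv).1, hL]
      · simp only [if_neg hv]
        exact hL v)
    have hcC : ∀ v, c ∉ C v := by
      intro v hcv
      have h1 := hC v
      by_cases hv : v ∈ M
      · simp only [if_pos hv] at h1
        exact notMem_erase c _ (h1.1 hcv)
      · simp only [if_neg hv, if_neg (fun hc => hv (hI hc))] at h1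
        have h2 : 0 < (C v).card := card_pos.2 ⟨c, hcv⟩
        exact hv ((hMm v).2 ⟨h1.1 hcv, by omega⟩)
    refine ⟨fun v => if v ∈ I then insert c (C v) else C v, ?_, ?_⟩
    · intro v
      have h1 := hC v
      by_cases hv : v ∈ I
      · have hvM := hI hv
        simp only [if_pos hv, if_pos hvM] at h1 ⊢
        refine ⟨insert_subset ((hMm v).1 hvM).1 (h1.1.trans (erase_subset _ _)), ?_⟩
        rw [card_insert_of_notMem (hcC v), h1.2]
        have := ((hMm v).1 hvM).2
        omega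
      · simp only [if_neg hv] at h1 ⊢
        refine ⟨h1.1.trans ?_, h1.2⟩
        split_ifs
        · exact erase_subset _ _
        · exact subset_rfl
    · intro u v huv
      have hd := hdisj u v huv
      by_cases hu : u ∈ I <;> by_cases hv : v ∈ I
      · exact absurd huv (hind hu hv huv.ne)
      · simp only [if_pos hu, if_neg hv]
        exact disjoint_insert_left.2 ⟨hcC v, hd⟩
      · simp only [if_neg hu, if_pos hv]
        exact disjoint_insert_right.2 ⟨hcC u, hd⟩
      · simp only [if_neg hu, if_neg hv]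
        exact hd

lemma sInf_eq (P : ℕ → ℕ → Prop) (m p : ℕ) (hp : 0 < p) (hm : 0 < m)
    (h1 : ∀ a b, m * b ≤ p * a → P a b) (h2 : ∀ a b, P a b → m * b ≤ p * a) :
    sInf {s : ℝ | ∀ a b : ℕ, 0 < b → s ≤ (a : ℝ) / (b : ℝ) → P a b} = (m : ℝ) / p := by
  have hp' : (0 : ℝ) < p := by exact_mod_cast hp
  have : {s : ℝ | ∀ a b : ℕ, 0 < b → s ≤ (a : ℝ) / (b : ℝ) → P a b} = Set.Ici ((m : ℝ) / p) := by
    ext s
    simp only [Set.mem_ofPred_eq, Set.mem_Ici]
    constructor
    · intro hs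
      by_contra hlt
      push Not at hlt
      have hpos : (0 : ℝ) < (m : ℝ) / p := by positivity
      obtain ⟨t, ht1, ht2⟩ := exists_rat_btwn (max_lt hlt hpos)
      have ht0 : (0 : ℝ) < t := lt_of_le_of_lt (le_max_right _ _) ht1
      have ht0' : 0 ≤ t := by exact_mod_cast ht0.le
      have hnum : 0 ≤ t.num := Rat.num_nonneg.2 ht0'
      have hd : (0 : ℝ) < t.den := by exact_mod_cast t.den_pos
      have et : (t : ℝ) = (t.num.toNat : ℝ) / (t.den : ℝ) := by
        have : ((t.num.toNat : ℕ) : ℝ) = (t.num : ℝ) := by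
          exact_mod_cast Int.toNat_of_nonneg hnum
        rw [this]
        exact Rat.cast_def t
      have h3 := h2 _ _ (hs t.num.toNat t.den t.den_pos
        (by rw [← et]; exact le_trans (le_max_left _ _) ht1.le))
      rw [et, div_lt_div_iff₀ hd hp'] at ht2
      have h4 : (m : ℝ) * t.den ≤ p * (t.num.toNat : ℝ) := by exact_mod_cast h3
      linarith
    · intro hs a b hb hab
      have hb' : (0 : ℝ) < b := by exact_mod_cast hb
      have h3 := le_trans hs hab
      rw [div_le_div_iff₀ hp' hb'] at h3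
      apply h1
      have : (m : ℝ) * b ≤ p * a := by linarith
      exact_mod_cast this
  rw [this, csInf_Ici]

/-- blow up a weighted graph -/
lemma blowup {V : Type} [Fintype V] [DecidableEq V] (G : SimpleGraph V) (wt : V → ℕ) (m p : ℕ)
    (hup : ∀ a b, m * b ≤ p * a → Win G (fun _ => a) (fun u => wt u * b))
    (hlow : ∀ a b (C : V → Finset ℕ), (∀ u, C u ⊆ range a ∧ (C u).card = wt u * b) →
      (∀ u v, G.Adj u v → Disjoint (C u) (C v)) → m * b ≤ p * a) :
    ∃ n, ∃ H : SimpleGraph (Fin n), (∀ a b, m * b ≤ p * a → Paintable H a b) ∧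
      (∀ a b, Choosable H a b → m * b ≤ p * a) := by
  let e := Fintype.equivFin (Σ v : V, Fin (wt v))
  let π : Fin (Fintype.card (Σ v : V, Fin (wt v))) → V := fun i => (e.symm i).1
  let H : SimpleGraph (Fin (Fintype.card (Σ v : V, Fin (wt v)))) :=
    { Adj := fun i j => i ≠ j ∧ (π i = π j ∨ G.Adj (π i) (π j))
      symm := ⟨fun i j h => ⟨h.1.symm, h.2.imp Eq.symm (fun h => h.symm)⟩⟩
      loopless := ⟨fun i h => h.1 rfl⟩ }
  have hcard : ∀ v, (univ.filter (fun c => π c = v)).card = wt v := by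
    intro v
    have : univ.filter (fun c => π c = v) = univ.image (fun k : Fin (wt v) => e ⟨v, k⟩) := by
      ext c
      simp only [mem_filter, mem_univ, true_and, mem_image]
      constructor
      · intro hc
        obtain ⟨⟨u, k⟩, rfl⟩ := e.surjective c
        have : u = v := by simpa [π] using hc
        subst this
        exact ⟨k, rfl⟩
      · rintro ⟨k, rfl⟩
        simp [π]
    rw [this, card_image_of_injective]
    · simp
    · intro k l hkl
      simpa using hkl
  refine ⟨_, H, ?_, ?_⟩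
  · intro a b hab
    refine Win.paintable ((hup a b hab).proj (G' := H) π (fun c d h => h.2) ?_ (fun _ => le_rfl))
    intro v
    rw [sum_const, hcard, smul_eq_mul]
  · intro a b hch
    obtain ⟨C, hC, hdisj⟩ := hch (fun _ => range a) (fun _ => card_range a)
    refine hlow a b (fun v => (univ.filter (fun c => π c = v)).biUnion C) ?_ ?_
    · intro v
      refine ⟨biUnion_subset.2 (fun c _ => (hC c).1), ?_⟩
      rw [card_biUnion]
      · rw [sum_congr rfl (fun c _ => (hC c).2), sum_const, hcard, smul_eq_mul]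
      · intro c hc d hd hcd
        have hc' : π c = v := by simpa using hc
        have hd' : π d = v := by simpa using hd
        exact hdisj c d ⟨hcd, Or.inl (hc'.trans hd'.symm)⟩
    · intro u v huv
      rw [disjoint_biUnion_left]
      intro c hc
      rw [disjoint_biUnion_right]
      intro d hd
      have hc' : π c = u := by simpa using hc
      have hd' : π d = v := by simpa using hd
      refine hdisj c d ⟨?_, Or.inr (by rw [hc', hd']; exact huv)⟩
      rintro rfl
      exact huv.ne (hc'.symm.trans hd')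

end Pool.Agent.MP_242484_co

end MrgPart2

-- ======== part 3: formerly Pool.Agent.MP_242484_co.Main
section MrgPart3

set_option autoImplicit false

namespace Pool.Agent.MP_242484_co

open Finset

variable {w : ℕ}

/-- one step of the chain adds `m * x - b` -/
def Step (w p q m : ℕ) : Prop :=
  ∀ T : TG w, ∃ T' : TG w, (∀ N n, T.Low N n → T'.Low (N + m) (n + 1)) ∧
    ∀ b x nu nu', q * b ≤ p * x → x ≤ b → nu ≤ x → nu' ≤ x → nu' + b ≤ nu + m * x →
      T.Phi ((w + 1) * b + x) b (w * b + x - nu) (w * b) →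
      T'.Phi ((w + 1) * b + x) b (w * b + x - nu') (w * b)

lemma step_big (hw : 2 ≤ w) (p q m : ℕ) (hm : 1 ≤ m) : Step w p q m := by
  intro T
  obtain ⟨s, rfl⟩ : ∃ s, m = s + 1 := ⟨m - 1, by omega⟩
  refine ⟨extN (jun T) s, ?_, ?_⟩
  · intro N n h
    have := extN_low _ _ _ s (jun_low T N n h)
    rwa [show N + 1 + s = N + (s + 1) by ring] at this
  · intro b x nu nu' _ hx hnu hnu' hle H
    have eb : 2 * b ≤ w * b := Nat.mul_le_mul_right b hw
    have e : (s + 1) * x = s * x + x := by ring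
    have H1 := jun_up T b x nu (w * b + x - nu') (min (w * b) (w * b + x - nu' + nu - b)) H
      (by omega) hx hnu (by omega) (by omega) (by omega) (by omega) (by omega)
    have H2 := extN_up _ b x _ _ s H1 (by omega) (by omega) (by omega) (by omega) hx
    rwa [show min (w * b) (min (w * b) (w * b + x - nu' + nu - b) + s * x) = w * b by omega] at H2

lemma step_one (p q : ℕ) : Step 1 p q 1 := by
  intro T
  refine ⟨jun T, fun N n h => jun_low T N n h, ?_⟩
  intro b x nu nu' _ hx hnu hnu' hle H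
  exact jun_up T b x nu _ _ H le_rfl hx hnu (by omega) (by omega) (by omega) (by omega) (by omega)

lemma step_two (p q : ℕ) (hp : 0 < p) (hpq : p ≤ 2 * q) : Step 1 p q 2 := by
  intro T
  refine ⟨tee T, fun N n h => tee_low T N n h, ?_⟩
  intro b x nu nu' hb hx hnu hnu' hle H
  have hb2 : b ≤ 2 * x := by
    have : p * b ≤ p * (2 * x) := by nlinarith
    exact Nat.le_of_mul_le_mul_left this hp
  exact tee_up T b x nu nu' H hx hb2 hnu hnu' hle

/-- the invariant of the chain -/
def Inv (w p q n : ℕ) : Prop :=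
  ∃ T : TG w, ∃ N t : ℕ, (N + 1) * q = (n + 1) * p + t ∧ t < q ∧ T.Low N n ∧
    ∀ b x, q * b ≤ p * x → x ≤ b → ∃ nu, nu ≤ x ∧ t * x ≤ q * nu ∧
      T.Phi ((w + 1) * b + x) b (w * b + x - nu) (w * b)

lemma exists_m (p q t : ℕ) (hq : 0 < q) (hqp : q ≤ p) (ht : t < q) :
    ∃ m t', 1 ≤ m ∧ t + m * q = p + t' ∧ t' < q := by
  refine ⟨(p - t + q - 1) / q, t + (p - t + q - 1) / q * q - p, ?_, ?_, ?_⟩
  · rw [Nat.le_div_iff_mul_le hq]; omega
  · have h1 := Nat.div_add_mod (p - t + q - 1) q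
    have h2 := Nat.mod_lt (p - t + q - 1) hq
    rw [mul_comm] at h1
    omega
  · have h1 := Nat.div_add_mod (p - t + q - 1) q
    rw [mul_comm] at h1
    omega

lemma next_nu (p q t m t' b x nu : ℕ) (hq : 0 < q) (e : t + m * q = p + t') (ht' : t' < q)
    (hb : q * b ≤ p * x) (h : t * x ≤ q * nu) :
    ∃ nu', nu' ≤ x ∧ t' * x ≤ q * nu' ∧ nu' + b ≤ nu + m * x := by
  have h1 : q * b + t' * x ≤ q * (nu + m * x) := by
    have : (t + m * q) * x = (p + t') * x := by rw [e]
    nlinarith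
  have h2 : b ≤ nu + m * x := by
    have : q * b ≤ q * (nu + m * x) := by omega
    exact Nat.le_of_mul_le_mul_left this hq
  refine ⟨min x (nu + m * x - b), min_le_left _ _, ?_, by omega⟩
  rcases le_total x (nu + m * x - b) with h3 | h3
  · rw [min_eq_left h3]
    exact Nat.mul_le_mul_right x ht'.le
  · rw [min_eq_right h3]
    obtain ⟨d, hd⟩ := Nat.exists_eq_add_of_le h2
    rw [hd] at h1 ⊢
    rw [Nat.add_sub_cancel_left]
    nlinarith

lemma inv_all (hw : 1 ≤ w) (p q : ℕ) (hq : 0 < q) (hqp : q ≤ p)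
    (hstep : ∀ m t t', 1 ≤ m → t + m * q = p + t' → t' < q → Step w p q m) (n : ℕ) :
    Inv w p q n := by
  induction n with
  | zero =>
    obtain ⟨m, t', hm, e, ht'⟩ := exists_m p q 0 hq hqp hq
    obtain ⟨s, rfl⟩ : ∃ s, m = s + 1 := ⟨m - 1, by omega⟩
    refine ⟨extN (base w) s, s, t', by omega, ht', ?_, ?_⟩
    · simpa using extN_low (base w) 0 0 s base_low
    · intro b x hb hx
      obtain ⟨nu', h1, h2, h3⟩ := next_nu p q 0 (s + 1) t' b x 0 hq e ht' hb (by simp)
      refine ⟨nu', h1, h2, ?_⟩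
      have eb : b ≤ w * b := Nat.le_mul_of_pos_left b hw
      have e' : (s + 1) * x = s * x + x := by ring
      have H1 := base_up (w := w) ((w + 1) * b + x) b (w * b + x - nu') (w * b + x - nu' - b)
        (by omega)
      have H2 := extN_up _ b x _ _ s H1 (by omega) (by omega) (by omega) (by omega) hx
      rwa [show min (w * b) (w * b + x - nu' - b + s * x) = w * b by omega] at H2
  | succ n ih =>
    obtain ⟨T, N, t, e0, ht, hlow, hup⟩ := ih
    obtain ⟨m, t', hm, e, ht'⟩ := exists_m p q t hq hqp ht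
    obtain ⟨T', hl, hu⟩ := hstep m t t' hm e ht' T
    refine ⟨T', N + m, t', by nlinarith, ht', hl N n hlow, ?_⟩
    intro b x hb hx
    obtain ⟨nu, h1, h2, H⟩ := hup b x hb hx
    obtain ⟨nu', h1', h2', h3'⟩ := next_nu p q t m t' b x nu hq e ht' hb h2
    exact ⟨nu', h1', h2', hu b x nu nu' hb hx h1 h1' h3' H⟩

lemma exists_graph (hw : 1 ≤ w) (p q : ℕ) (hq : 0 < q) (hqp : q ≤ p)
    (hstep : ∀ m t t', 1 ≤ m → t + m * q = p + t' → t' < q → Step w p q m) :
    ∃ n, ∃ H : SimpleGraph (Fin n), (∀ a b, ((w + 1) * p + q) * b ≤ p * a → Paintable H a b) ∧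
      (∀ a b, Choosable H a b → ((w + 1) * p + q) * b ≤ p * a) := by
  obtain ⟨T, N, t, e0, ht, hlow, hup⟩ := inv_all hw p q hq hqp hstep (q - 1)
  have hp : 0 < p := by omega
  rw [show q - 1 + 1 = q by omega] at e0
  have ht0 : t = 0 := by
    have h1 : q ∣ t := by
      have : q ∣ q * p + t := e0 ▸ Dvd.intro_left _ rfl
      exact (Nat.dvd_add_right (Dvd.intro _ rfl)).1 this
    exact Nat.eq_zero_of_dvd_of_lt h1 ht
  have hN : N + 1 = p := by
    subst ht0
    have : (N + 1) * q = p * q := by rw [e0]; ring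
    exact Nat.eq_of_mul_eq_mul_right hq this
  refine blowup (glue T.G {T.X, T.y} (Pa 2) (fun _ : Unit => 1) 0) (Sum.elim T.wt (fun _ => 1))
    _ p ?_ ?_
  · intro a b hab
    obtain ⟨x, hx1, hx2, hx3⟩ : ∃ x, q * b ≤ p * x ∧ x ≤ b ∧ (w + 1) * b + x ≤ a := by
      have h1 : (w + 1) * b ≤ a := by
        have : p * ((w + 1) * b) ≤ p * a := by nlinarith
        exact Nat.le_of_mul_le_mul_left this hp
      obtain ⟨d, rfl⟩ := Nat.exists_eq_add_of_le h1
      refine ⟨min b d, ?_, min_le_left _ _, by omega⟩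
      rcases le_total b d with h | h
      · rw [min_eq_left h]; exact Nat.mul_le_mul_right b hqp
      · rw [min_eq_right h]; nlinarith
    obtain ⟨nu, h1, -, H⟩ := hup b x hx1 hx2
    have ea : (w + 1) * b = w * b + b := by ring
    have W2 := win_edge (w * b + 2 * b) ((w + 1) * b + x) (w * b + b) b (by omega) (by omega)
    have W3 := Phi_join T (fun _ : Unit => (1 : Fin 2)) 0 (fun _ _ _ => rfl) (by decide) _ b _ H W2
      (by simp) (by simp; omega) (g := fun _ => (w + 1) * b + x)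
      (h := fun u => Sum.elim T.wt (fun _ => 1) u * b) (fun _ => rfl) (by simp) (fun _ => rfl)
      (by simp)
    exact W3.mono (fun _ => le_rfl) (fun _ _ => hx3)
  · intro a b C h1 h2
    have e1 := low_join T (fun _ : Unit => (1 : Fin 2)) 0 N (q - 1) hlow (fun _ => 1) a b C
      ⟨h1, h2⟩ () () (by decide) (by decide)
    have e2 : (C (Sum.inr ())).card = b := by simpa using (h1 (Sum.inr ())).2
    rw [union_self, e2] at e1
    have e3 : ((q - 1 : ℕ) : ℤ) = q - 1 := by omega
    have e4 : (N : ℤ) + 1 = p := by exact_mod_cast hN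
    rw [e3, e4] at e1
    zify
    nlinarith

theorem exists_graph_rat (r : ℚ) (hr : 5 / 2 ≤ r) :
    ∃ n, ∃ H : SimpleGraph (Fin n),
      sInf {s : ℝ | ∀ a b : ℕ, 0 < b → s ≤ (a : ℝ) / (b : ℝ) → Choosable H a b} = (r : ℝ) ∧
      sInf {s : ℝ | ∀ a b : ℕ, 0 < b → s ≤ (a : ℝ) / (b : ℝ) → Paintable H a b} = (r : ℝ) := by
  have hnum : 0 ≤ r.num := Rat.num_nonneg.2 (by linarith)
  obtain ⟨m, hm⟩ := Int.eq_ofNat_of_zero_le hnum
  set p := r.den with hp
  have hp0 : 0 < p := r.den_pos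
  have hrm : (r : ℝ) = (m : ℝ) / p := by
    rw [Rat.cast_def, hm]; simp [hp]
  have h5 : 5 * p ≤ 2 * m := by
    have h1 : (5 / 2 : ℝ) ≤ (m : ℝ) / p := by
      rw [← hrm]
      have h0 : ((5 / 2 : ℚ) : ℝ) ≤ (r : ℝ) := Rat.cast_le.2 hr
      simpa using h0
    have hp' : (0 : ℝ) < p := by exact_mod_cast hp0
    rw [div_le_div_iff₀ (by norm_num) hp'] at h1
    have : (5 : ℝ) * p ≤ 2 * m := by linarith
    exact_mod_cast this
  obtain ⟨w, q, hw, hq, hqp, e⟩ : ∃ w q, 1 ≤ w ∧ 0 < q ∧ q ≤ p ∧ m = (w + 1) * p + q := by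
    have h1 := Nat.div_add_mod (m - 1) p
    have h2 := Nat.mod_lt (m - 1) hp0
    have h3 : 2 ≤ (m - 1) / p := by rw [Nat.le_div_iff_mul_le hp0]; omega
    refine ⟨(m - 1) / p - 1, (m - 1) % p + 1, by omega, by omega, by omega, ?_⟩
    rw [show (m - 1) / p - 1 + 1 = (m - 1) / p by omega, mul_comm]
    omega
  have hstep : ∀ k t t', 1 ≤ k → t + k * q = p + t' → t' < q → Step w p q k := by
    intro k t t' hk ek ht'
    rcases Nat.lt_or_ge w 2 with hw2 | hw2
    · have : w = 1 := by omega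
      subst this
      have hpq : p ≤ 2 * q := by omega
      have hk3 : k < 3 := by
        have : k * q < 3 * q := by omega
        exact Nat.lt_of_mul_lt_mul_right this
      interval_cases k
      · exact step_one p q
      · exact step_two p q hp0 hpq
    · exact step_big hw2 p q k hk
  obtain ⟨n, H, h1, h2⟩ := exists_graph hw p q hq hqp hstep
  rw [← e] at h1 h2
  refine ⟨n, H, ?_, ?_⟩
  · rw [hrm]
    exact sInf_eq _ m p hp0 (by omega) (fun a b h => (h1 a b h).choosable) h2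
  · rw [hrm]
    exact sInf_eq _ m p hp0 (by omega) h1 (fun a b h => h2 a b h.choosable)

end Pool.Agent.MP_242484_co

end MrgPart3

-- ======== part 4: formerly Pool.Agent.MP_242484_co.OffMain
section MrgPart4

set_option autoImplicit false

namespace Pool.Agent.MP_242484_co

open Finset

/-- a finite graph with two terminals -/
structure CG : Type 1 where
  V : Type
  fin : Fintype V
  G : SimpleGraph V
  X : V
  y : V

attribute [instance] CG.fin

/-- `b`-fold colourings from the lists `L` -/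
def LCol {V : Type} (G : SimpleGraph V) (L : V → Finset ℕ) (b : ℕ) (C : V → Finset ℕ) : Prop :=
  (∀ v, C v ⊆ L v ∧ (C v).card = b) ∧ ∀ u v, G.Adj u v → Disjoint (C u) (C v)

/-- add a vertex adjacent to the vertices with property `P` -/
def addV {V : Type} (G : SimpleGraph V) (P : V → Prop) : SimpleGraph (Option V) where
  Adj u v := match u, v with
    | some u, some v => G.Adj u v
    | none, some v => P v
    | some u, none => P u
    | none, none => False
  symm := ⟨by
    rintro (_ | u) (_ | v) h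
    · exact h
    · exact h
    · exact h
    · exact G.adj_symm h⟩
  loopless := ⟨by
    rintro (_ | u) h
    · exact h
    · exact G.loopless.1 u h⟩

lemma LCol.extend {V : Type} {G : SimpleGraph V} {P : V → Prop} {L : Option V → Finset ℕ} {b : ℕ}
    {C : V → Finset ℕ} (h : LCol G (fun v => L (some v)) b C) (D : Finset ℕ) (hD : D ⊆ L none)
    (cD : D.card = b) (hd : ∀ u, P u → Disjoint D (C u)) :
    LCol (addV G P) L b (fun v => v.elim D C) := by
  refine ⟨?_, ?_⟩
  · rintro (_ | v)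
    · exact ⟨hD, cD⟩
    · exact h.1 v
  · rintro (_ | u) (_ | v) huv
    · exact huv.elim
    · exact hd v huv
    · exact (hd u huv).symm
    · exact h.2 u v huv

lemma LCol.restrict {V : Type} {G : SimpleGraph V} {P : V → Prop} {L : Option V → Finset ℕ}
    {b : ℕ} {C : Option V → Finset ℕ} (h : LCol (addV G P) L b C) :
    LCol G (fun v => L (some v)) b (fun v => C (some v)) :=
  ⟨fun v => h.1 (some v), fun u v huv => h.2 (some u) (some v) huv⟩

lemma LCol.disj {V : Type} {G : SimpleGraph V} {P : V → Prop} {L : Option V → Finset ℕ}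
    {b : ℕ} {C : Option V → Finset ℕ} (h : LCol (addV G P) L b C) (u : V) (hu : P u) :
    Disjoint (C none) (C (some u)) := h.2 none (some u) hu

lemma pick (Y A : Finset ℕ) (b s : ℕ) (h1 : b ≤ Y.card) (h2 : b ≤ (Y \ A).card + s) :
    ∃ D ⊆ Y, D.card = b ∧ (D ∩ A).card ≤ s := by
  rcases le_total b (Y \ A).card with h | h
  · obtain ⟨D, hD, cD⟩ := exists_subset_card_eq h
    refine ⟨D, hD.trans sdiff_subset, cD, ?_⟩
    rw [ci_disj (disjoint_left.2 (fun z hz => (mem_sdiff.1 (hD hz)).2))]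
    exact Nat.zero_le _
  · obtain ⟨D, hD1, hD2, cD⟩ := exists_subsuperset_card_eq (sdiff_subset (s := Y) (t := A)) h h1
    refine ⟨D, hD2, cD, ?_⟩
    have e1 := card_sdiff_add_card_inter D A
    have e2 : (Y \ A).card ≤ (D \ A).card :=
      card_le_card (fun z hz => mem_sdiff.2 ⟨hD1 hz, (mem_sdiff.1 hz).2⟩)
    omega

/-- colourability with one constraint at each terminal -/
def CG.Up (T : CG) (a b g s h t : ℕ) : Prop :=
  ∀ L : T.V → Finset ℕ, (∀ v, (L v).card = a) → ∀ A B : Finset ℕ, A.card ≤ g → B.card ≤ h →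
    ∃ C, LCol T.G L b C ∧ (C T.X ∩ A).card ≤ s ∧ (C T.y ∩ B).card ≤ t

/-- the terminals share few colours -/
def CG.LowO (T : CG) (N n : ℕ) : Prop :=
  ∀ a b C, LCol T.G (fun _ => range a) b C →
    ((C T.X ∩ C T.y).card : ℤ) ≤ N * ((a : ℤ) - 2 * b) - n * b

/-- the terminals differ in few colours -/
def CG.LowE (T : CG) (N n : ℕ) : Prop :=
  ∀ a b C, LCol T.G (fun _ => range a) b C →
    ((C T.y \ C T.X).card : ℤ) ≤ N * ((a : ℤ) - 2 * b) - n * b

/-- exchange the terminals -/
def CG.swap (T : CG) : CG := ⟨T.V, T.fin, T.G, T.y, T.X⟩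

lemma swap_up {T : CG} {a b g s h t : ℕ} (H : T.Up a b g s h t) : T.swap.Up a b h t g s := by
  intro L hL A B hA hB
  obtain ⟨C, h1, h2, h3⟩ := H L hL B A hB hA
  exact ⟨C, h1, h3, h2⟩

lemma swap_lowO {T : CG} {N n : ℕ} (H : T.LowO N n) : T.swap.LowO N n := by
  intro a b C hC
  have := H a b C hC
  rwa [inter_comm] at this

lemma swap_lowE {T : CG} {N n : ℕ} (H : T.LowE N n) : T.swap.LowE N n := by
  intro a b C hC
  have := H a b C hC
  rwa [card_sdiff_comm (((hC.1 T.y).2).trans ((hC.1 T.X).2).symm)] at this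

/-- a single vertex -/
def CG.pt : CG := ⟨Unit, inferInstance, ⊥, (), ()⟩

lemma pt_lowE : CG.pt.LowE 0 0 := by
  intro a b C _
  simp [CG.pt]

lemma pt_up {a b g h t : ℕ} (h1 : b + g ≤ a) (h2 : b + g + h ≤ a + t) : CG.pt.Up a b g 0 h t := by
  intro L hL A B hA hB
  have e1 := cs_ge (L ()) A
  have e2 := cs_ge (L () \ A) B
  have e3 := hL ()
  obtain ⟨D, hD, cD, kD⟩ := pick (L () \ A) B b t (by omega) (by omega)
  refine ⟨fun _ => D, ⟨fun _ => ⟨hD.trans sdiff_subset, cD⟩, fun _ _ h => h.elim⟩, ?_, kD⟩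
  rw [ci_disj (disjoint_left.2 (fun z hz => (mem_sdiff.1 (hD hz)).2))]

/-- a new leaf at the first terminal -/
def CG.leaf (T : CG) : CG := ⟨Option T.V, inferInstance, addV T.G (fun v => v = T.X), none, some T.y⟩

lemma leaf_up {T : CG} {a b g s h t g' s' : ℕ} (H : T.Up a b g s h t) (h1 : g + g' ≤ a)
    (h2 : b + s ≤ g + s') (h3 : 2 * b ≤ a) : T.leaf.Up a b g' s' h t := by
  intro L hL A' B hA hB
  have e1 := cs_ge (L none) A'
  have e3 := hL none
  obtain ⟨A, hA1, cA⟩ := exists_subset_card_eq (s := L none \ A') (n := g) (by omega)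
  obtain ⟨C, k1, k2, k3⟩ := H (fun v => L (some v)) (fun v => hL (some v)) A B cA.le hB
  have e4 := cs_ge (L none) (C T.X)
  have e5 := (k1.1 T.X).2
  have e6 := card_sdiff_add_card_inter A (C T.X)
  rw [inter_comm] at e6
  have e7 : (A \ C T.X).card ≤ ((L none \ C T.X) \ A').card := by
    refine card_le_card (fun z hz => ?_)
    have := @hA1 z
    simp only [mem_sdiff] at hz this ⊢
    tauto
  obtain ⟨D, hD, cD, kD⟩ := pick (L none \ C T.X) A' b s' (by omega) (by omega)
  refine ⟨_, k1.extend D (hD.trans sdiff_subset) cD ?_, kD, k3⟩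
  rintro u rfl
  exact disjoint_left.2 (fun z hz => (mem_sdiff.1 (hD hz)).2)

lemma leaf_lowO {T : CG} {N n : ℕ} (H : T.LowE N n) : T.leaf.LowO N n := by
  intro a b C hC
  refine le_trans ?_ (H a b _ hC.restrict)
  have d := hC.disj T.X rfl
  refine Int.ofNat_le.2 (card_le_card (fun z hz => ?_))
  exact mem_sdiff.2 ⟨(mem_inter.1 hz).2, disjoint_left.1 d (mem_inter.1 hz).1⟩

lemma card_add_le' {A B : Finset ℕ} {a : ℕ} (hA : A ⊆ range a) (hB : B ⊆ range a)
    (h : Disjoint A B) : A.card + B.card ≤ a := by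
  rw [← card_union_of_disjoint h]
  simpa using card_le_card (union_subset hA hB)

lemma leaf_lowE {T : CG} {N n : ℕ} (H : T.LowO N n) : T.leaf.LowE (N + 1) n := by
  intro a b C hC
  have h1 := H a b _ hC.restrict
  have d := hC.disj T.X rfl
  have hX := hC.1 (some T.X)
  have hn := hC.1 none
  have hy := hC.1 (some T.y)
  have e1 := card_add_le' (a := a) (union_subset hn.1 hX.1)
    ((sdiff_subset (s := C (some T.y)) (t := C none ∪ C (some T.X))).trans hy.1) disjoint_sdiff
  rw [card_union_of_disjoint d, hn.2, hX.2] at e1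
  have e2 : (C (some T.y) \ C none).card ≤ (C (some T.X) ∩ C (some T.y)).card +
      (C (some T.y) \ (C none ∪ C (some T.X))).card := by
    refine le_trans (card_le_card (fun z hz => ?_)) (card_union_le _ _)
    simp only [mem_sdiff, mem_union, mem_inter] at hz ⊢
    tauto
  change ((C (some T.y) \ C none).card : ℤ) ≤ _
  push_cast
  zify at e1 e2
  linarith

/-- `k` pairs of new leaves -/
def CG.rail (T : CG) : ℕ → CG
  | 0 => T
  | k + 1 => (T.rail k).leaf.leaf

lemma rail_lowE {T : CG} {N n : ℕ} (H : T.LowE N n) (k : ℕ) : (T.rail k).LowE (N + k) n := by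
  induction k with
  | zero => exact H
  | succ k ih => exact leaf_lowE (leaf_lowO ih)

lemma rail_lowO {T : CG} {N n : ℕ} (H : T.LowO N n) (k : ℕ) : (T.rail k).LowO (N + k) n := by
  induction k with
  | zero => exact H
  | succ k ih => exact leaf_lowO (leaf_lowE ih)

lemma rail_up {T : CG} {b x g h t : ℕ} (hg : g ≤ b + x) (k s : ℕ)
    (H : T.Up (2 * b + x) b g (s + k * x) h t) : (T.rail k).Up (2 * b + x) b g s h t := by
  induction k generalizing s with
  | zero => simpa [CG.rail] using H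
  | succ k ih =>
    have H1 := ih (s + x) (by rwa [show s + x + k * x = s + (k + 1) * x by ring])
    have H2 := leaf_up H1 (g' := 2 * b + x - g) (s' := b + x + s - g) (by omega) (by omega)
      (by omega)
    exact leaf_up H2 (by omega) (by omega) (by omega)

/-- a new vertex adjacent to both terminals -/
def CG.cap (T : CG) : CG :=
  ⟨Option T.V, inferInstance, addV T.G (fun v => v = T.X ∨ v = T.y), none, none⟩

/-- two new vertices adjacent to both terminals -/
def CG.jun (T : CG) : CG :=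
  ⟨Option (Option T.V), inferInstance,
    addV (addV T.G (fun v => v = T.X ∨ v = T.y)) (fun v => v = some T.X ∨ v = some T.y),
    none, some none⟩

lemma ojun_low {T : CG} {N n : ℕ} (H : T.LowO N n) : T.jun.LowE (N + 1) (n + 1) := by
  intro a b C hC
  have h1 := H a b _ hC.restrict.restrict
  have d1 := hC.disj (some T.X) (Or.inl rfl)
  have d2 := hC.disj (some T.y) (Or.inr rfl)
  have d3 := hC.restrict.disj T.X (Or.inl rfl)
  have d4 := hC.restrict.disj T.y (Or.inr rfl)
  have hX := hC.1 (some (some T.X))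
  have hy := hC.1 (some (some T.y))
  have hv := hC.1 none
  have hu := hC.1 (some none)
  have e1 := card_add_le' (a := a) (union_subset hu.1 hv.1) (union_subset hX.1 hy.1) (by
    simp only [disjoint_union_left, disjoint_union_right]
    exact ⟨⟨d3, d1⟩, ⟨d4, d2⟩⟩)
  have e2 := card_union_add_card_inter (C (some (some T.X))) (C (some (some T.y)))
  have e3 := card_sdiff_add_card (C (some none)) (C none)
  rw [hX.2, hy.2] at e2
  rw [hv.2] at e3
  change ((C (some none) \ C none).card : ℤ) ≤ _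
  push_cast
  zify at e1 e2 e3
  linarith

lemma ojun_up {T : CG} {b x nu f1 β1 f2 β2 g s h t : ℕ}
    (H : T.Up (2 * b + x) b (b + nu) 0 (b + x) 0) (J : JL b x nu f1 β1 f2 β2)
    (h1 : f1 + g ≤ 2 * b + x) (h2 : b + β1 ≤ f1 + s) (h3 : f2 + h ≤ 2 * b + x)
    (h4 : b + β2 ≤ f2 + t) : T.jun.Up (2 * b + x) b g s h t := by
  intro L hL A B hA hB
  have e1 := cs_ge (L none) A
  have e2 := cs_ge (L (some none)) B
  have c1 := hL none
  have c2 := hL (some none)
  have c3 := hL (some (some T.X))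
  have c4 := hL (some (some T.y))
  obtain ⟨F, hF, cF⟩ := exists_subset_card_eq (s := L none \ A) (n := f1) (by omega)
  obtain ⟨G, hG, cG⟩ := exists_subset_card_eq (s := L (some none) \ B) (n := f2) (by omega)
  obtain ⟨S, s1, s2, s3, s4, s5, s6⟩ := J _ _ _ _ F G c3 c4 c1 c2 (hF.trans sdiff_subset) cF
    (hG.trans sdiff_subset) cG
  have split : ∀ Z : Finset ℕ, (Z \ S).card + (S ∩ Z).card = Z.card := fun Z => by
    rw [inter_comm]; exact card_sdiff_add_card_inter Z S
  obtain ⟨C, k1, k2, k3⟩ := H (fun v => L (some (some v))) (fun v => hL (some (some v)))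
    (L (some (some T.X)) \ S) (L (some (some T.y)) \ S)
    (by have := split (L (some (some T.X))); omega)
    (by have := split (L (some (some T.y))); omega)
  have inS : ∀ v, (C v ∩ (L (some (some v)) \ S)).card ≤ 0 → C v ⊆ S := by
    intro v hv z hz
    by_contra hzS
    have : z ∈ C v ∩ (L (some (some v)) \ S) := mem_inter.2 ⟨hz, mem_sdiff.2 ⟨(k1.1 v).1 hz, hzS⟩⟩
    rw [Nat.le_zero, card_eq_zero] at hv
    rw [hv] at this
    exact notMem_empty _ this
  have sub : ∀ Y Z W : Finset ℕ, Z ⊆ Y \ W → (Z \ S).card ≤ ((Y \ S) \ W).card := by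
    intro Y Z W hZ
    refine card_le_card (fun z hz => ?_)
    have := @hZ z
    simp only [mem_sdiff] at hz this ⊢
    tauto
  obtain ⟨D1, hD1, cD1, kD1⟩ := pick (L none \ S) A b s (by have := split (L none); omega)
    (by have := split F; have := sub _ _ _ hF; omega)
  obtain ⟨D2, hD2, cD2, kD2⟩ := pick (L (some none) \ S) B b t
    (by have := split (L (some none)); omega) (by have := split G; have := sub _ _ _ hG; omega)
  have dS : ∀ D Y : Finset ℕ, D ⊆ Y \ S → ∀ v, (v = T.X ∨ v = T.y) → Disjoint D (C v) := by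
    intro D Y hD v hv
    refine disjoint_left.2 (fun z hz hz' => (mem_sdiff.1 (hD hz)).2 ?_)
    rcases hv with rfl | rfl
    · exact inS _ k2 hz'
    · exact inS _ k3 hz'
  have l1 := LCol.extend (P := fun v => v = T.X ∨ v = T.y) (L := fun v => L (some v)) k1 D2
    (hD2.trans sdiff_subset) cD2 (dS _ _ hD2)
  refine ⟨_, LCol.extend (L := L) l1 D1 (hD1.trans sdiff_subset) cD1 ?_, kD1, kD2⟩
  rintro u (rfl | rfl)
  · exact dS _ _ hD1 _ (Or.inl rfl)
  · exact dS _ _ hD1 _ (Or.inr rfl)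

lemma cap_low {T : CG} {N n : ℕ} (H : T.LowO N n) (a b : ℕ) (C : T.cap.V → Finset ℕ)
    (hC : LCol T.cap.G (fun _ => range a) b C) :
    ((n : ℤ) + 1) * b ≤ (N + 1) * ((a : ℤ) - 2 * b) := by
  have h1 := H a b _ hC.restrict
  have d3 := hC.disj T.X (Or.inl rfl)
  have d4 := hC.disj T.y (Or.inr rfl)
  have hX := hC.1 (some T.X)
  have hy := hC.1 (some T.y)
  have hu := hC.1 none
  have e1 := card_add_le' (a := a) hu.1 (union_subset hX.1 hy.1) (disjoint_union_right.2 ⟨d3, d4⟩)
  have e2 := card_union_add_card_inter (C (some T.X)) (C (some T.y))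
  rw [hX.2, hy.2] at e2
  rw [hu.2] at e1
  zify at e1 e2
  linarith

lemma cap_up {T : CG} {a b g h : ℕ} (H : T.Up a b g 0 h 0) (h1 : b ≤ g) (h2 : b ≤ h) (h3 : b ≤ a)
    (L : T.cap.V → Finset ℕ) (hL : ∀ v, (L v).card = a) : ∃ C, LCol T.cap.G L b C := by
  obtain ⟨D, hD, cD⟩ := exists_subset_card_eq (s := L none) (n := b) (by rw [hL]; exact h3)
  obtain ⟨C, k1, k2, k3⟩ := H (fun v => L (some v)) (fun v => hL (some v)) D D (by omega)
    (by omega)
  refine ⟨_, k1.extend D hD cD ?_⟩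
  rw [Nat.le_zero, card_eq_zero, ← disjoint_iff_inter_eq_empty] at k2 k3
  rintro u (rfl | rfl)
  · exact k2.symm
  · exact k3.symm

lemma off_step (m : ℕ) (hm : 2 ≤ m) (T : CG) :
    ∃ T' : CG, (∀ N n, T.LowO N n → T'.LowO (N + m) (n + 1)) ∧
      ∀ b x nu nu', x ≤ b → nu ≤ x → nu' ≤ x → nu' + b ≤ nu + m * x →
        T.Up (2 * b + x) b (b + nu) 0 (b + x) 0 → T'.Up (2 * b + x) b (b + nu') 0 (b + x) 0 := by
  rcases Nat.even_or_odd' m with ⟨s, rfl | rfl⟩
  · obtain ⟨s, rfl⟩ : ∃ k, s = k + 1 := ⟨s - 1, by omega⟩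
    refine ⟨((T.jun.rail s).leaf.swap.rail (s + 1)).swap, ?_, ?_⟩
    · intro N n h
      have := swap_lowO (rail_lowO (swap_lowO (leaf_lowO (rail_lowE (ojun_low h) s))) (s + 1))
      rwa [show N + 1 + s + (s + 1) = N + 2 * (s + 1) by ring] at this
    · intro b x nu nu' hx hnu hnu' hle H
      have e : (s + 1) * x = s * x + x := by ring
      have e' : 2 * (s + 1) * x = 2 * ((s + 1) * x) := by ring
      have J := jl_even b x nu nu' ((s + 1) * x) hx hnu hnu' (by omega)
      have H1 := ojun_up H J (g := b + x - nu') (s := (x - nu') + s * x) (h := b + x)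
        (t := 0 + (s + 1) * x) (by omega) (by omega) (by omega) (by omega)
      have H2 := leaf_up (rail_up (by omega) s _ H1) (g' := b + nu') (s' := 0) (by omega)
        (by omega) (by omega)
      exact swap_up (rail_up le_rfl (s + 1) 0 (swap_up H2))
  · refine ⟨(T.jun.rail s).leaf.swap.rail s, ?_, ?_⟩
    · intro N n h
      have := rail_lowO (swap_lowO (leaf_lowO (rail_lowE (ojun_low h) s))) s
      rwa [show N + 1 + s + s = N + (2 * s + 1) by ring] at this
    · intro b x nu nu' hx hnu hnu' hle H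
      have e' : (2 * s + 1) * x = 2 * (s * x) + x := by ring
      have e : x ≤ s * x := Nat.le_mul_of_pos_left x (by omega)
      have J := jl_odd b x nu nu' (x - nu') (s * x) hx e hnu (by omega) (by omega)
      have H1 := ojun_up H J (g := b) (s := 0 + s * x) (h := b + nu')
        (t := 0 + s * x) (by omega) (by omega) (by omega) (by omega)
      have H2 := leaf_up (rail_up (by omega) s _ H1) (g' := b + x) (s' := 0) (by omega)
        (by omega) (by omega)
      exact rail_up (by omega) s 0 (swap_up H2)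

/-- the invariant of the chain -/
def OffInv (p q n : ℕ) : Prop :=
  ∃ T : CG, ∃ N t : ℕ, (N + 1) * q = (n + 1) * p + t ∧ t < q ∧ T.LowO N n ∧
    ∀ b x, q * b ≤ p * x → x ≤ b → ∃ nu, nu ≤ x ∧ t * x ≤ q * nu ∧
      T.Up (2 * b + x) b (b + nu) 0 (b + x) 0

lemma off_inv (p q : ℕ) (hq : 0 < q) (hqp : 2 * q ≤ p) (n : ℕ) : OffInv p q n := by
  induction n with
  | zero =>
    obtain ⟨m, t', hm, e, ht'⟩ := exists_m p q 0 hq (by omega) hq
    obtain ⟨s, rfl⟩ : ∃ s, m = s + 1 := ⟨m - 1, by omega⟩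
    refine ⟨(CG.pt.swap.rail s).leaf.swap, s, t', by omega, ht', ?_, ?_⟩
    · simpa using swap_lowO (leaf_lowO (rail_lowE (swap_lowE pt_lowE) s))
    · intro b x hb hx
      obtain ⟨nu', h1, h2, h3⟩ := next_nu p q 0 (s + 1) t' b x 0 hq e ht' hb (by simp)
      refine ⟨nu', h1, h2, ?_⟩
      have e' : (s + 1) * x = s * x + x := by ring
      have H1 := pt_up (a := 2 * b + x) (b := b) (g := b + nu') (h := b) (t := 0 + s * x)
        (by omega) (by omega)
      exact swap_up (leaf_up (rail_up (by omega) s 0 (swap_up H1)) (by omega) (by omega)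
        (by omega))
  | succ n ih =>
    obtain ⟨T, N, t, e0, ht, hlow, hup⟩ := ih
    obtain ⟨m, t', hm, e, ht'⟩ := exists_m p q t hq (by omega) ht
    have hm2 : 2 ≤ m := by
      by_contra h
      have : m = 1 := by omega
      subst this
      omega
    obtain ⟨T', hl, hu⟩ := off_step m hm2 T
    refine ⟨T', N + m, t', by nlinarith, ht', hl N n hlow, ?_⟩
    intro b x hb hx
    obtain ⟨nu, h1, h2, H⟩ := hup b x hb hx
    obtain ⟨nu', h1', h2', h3'⟩ := next_nu p q t m t' b x nu hq e ht' hb h2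
    exact ⟨nu', h1', h2', hu b x nu nu' hx h1 h1' h3' H⟩

lemma lcol_mono {V : Type} (G : SimpleGraph V) (a a' b : ℕ) (h : a ≤ a')
    (H : ∀ L : V → Finset ℕ, (∀ v, (L v).card = a) → ∃ C, LCol G L b C)
    (L : V → Finset ℕ) (hL : ∀ v, (L v).card = a') : ∃ C, LCol G L b C := by
  choose L' h1 h2 using fun v => exists_subset_card_eq (s := L v) (n := a) (by rw [hL]; exact h)
  obtain ⟨C, k1, k2⟩ := H L' h2
  exact ⟨C, fun v => ⟨(k1 v).1.trans (h1 v), (k1 v).2⟩, k2⟩

lemma to_fin {V : Type} [Fintype V] (G : SimpleGraph V) (m p : ℕ) (hp : 0 < p) (hm : 0 < m)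
    (hup : ∀ a b, m * b ≤ p * a → ∀ L : V → Finset ℕ, (∀ v, (L v).card = a) → ∃ C, LCol G L b C)
    (hlow : ∀ a b C, LCol G (fun _ => range a) b C → m * b ≤ p * a) :
    ∃ n, ∃ H : SimpleGraph (Fin n),
      sInf {s : ℝ | ∀ a b : ℕ, 0 < b → s ≤ (a : ℝ) / (b : ℝ) → Choosable H a b} = (m : ℝ) / p := by
  let e := Fintype.equivFin V
  refine ⟨_, G.comap e.symm, sInf_eq _ m p hp hm ?_ ?_⟩
  · intro a b hab L hL
    obtain ⟨C, k1, k2⟩ := hup a b hab (fun v => L (e v)) (fun v => hL _)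
    refine ⟨fun i => C (e.symm i), fun i => ?_, fun i j hij => k2 _ _ hij⟩
    simpa using k1 (e.symm i)
  · intro a b hch
    obtain ⟨C, k1, k2⟩ := hch (fun _ => range a) (fun _ => card_range a)
    refine hlow a b (fun v => C (e v)) ⟨fun v => k1 _, fun u v huv => k2 _ _ ?_⟩
    simpa using huv

lemma off_graph (p q : ℕ) (hq : 0 < q) (hqp : 2 * q ≤ p) :
    ∃ n, ∃ H : SimpleGraph (Fin n),
      sInf {s : ℝ | ∀ a b : ℕ, 0 < b → s ≤ (a : ℝ) / (b : ℝ) → Choosable H a b} =
        ((2 * p + q : ℕ) : ℝ) / p := by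
  obtain ⟨T, N, t, e0, ht, hlow, hup⟩ := off_inv p q hq hqp (q - 1)
  have hp : 0 < p := by omega
  rw [show q - 1 + 1 = q by omega] at e0
  have ht0 : t = 0 := by
    have h1 : q ∣ t := by
      have : q ∣ q * p + t := e0 ▸ Dvd.intro_left _ rfl
      exact (Nat.dvd_add_right (Dvd.intro _ rfl)).1 this
    exact Nat.eq_zero_of_dvd_of_lt h1 ht
  have hN : N + 1 = p := by
    subst ht0
    have : (N + 1) * q = p * q := by rw [e0]; ring
    exact Nat.eq_of_mul_eq_mul_right hq this
  refine to_fin T.cap.G _ p hp (by omega) ?_ ?_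
  · intro a b hab
    obtain ⟨x, hx1, hx2, hx3⟩ : ∃ x, q * b ≤ p * x ∧ x ≤ b ∧ 2 * b + x ≤ a := by
      have h1 : 2 * b ≤ a := by
        have : p * (2 * b) ≤ p * a := by nlinarith
        exact Nat.le_of_mul_le_mul_left this hp
      obtain ⟨d, rfl⟩ := Nat.exists_eq_add_of_le h1
      refine ⟨min b d, ?_, min_le_left _ _, by omega⟩
      rcases le_total b d with h | h
      · rw [min_eq_left h]; exact Nat.mul_le_mul_right b (by omega)
      · rw [min_eq_right h]; nlinarith
    obtain ⟨nu, -, -, H⟩ := hup b x hx1 hx2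
    exact lcol_mono _ _ _ _ hx3 (cap_up H (by omega) (by omega) (by omega))
  · intro a b C hC
    have e1 := cap_low hlow a b C hC
    have e3 : ((q - 1 : ℕ) : ℤ) = q - 1 := by omega
    have e4 : (N : ℤ) + 1 = p := by exact_mod_cast hN
    rw [e3, e4] at e1
    zify
    nlinarith

lemma off_two : ∃ n, ∃ H : SimpleGraph (Fin n),
    sInf {s : ℝ | ∀ a b : ℕ, 0 < b → s ≤ (a : ℝ) / (b : ℝ) → Choosable H a b} =
      ((2 : ℕ) : ℝ) / (1 : ℕ) := by
  refine to_fin CG.pt.cap.G 2 1 (by omega) (by omega) ?_ ?_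
  · intro a b hab L hL
    obtain ⟨C, k1, -⟩ := leaf_up (pt_up (a := a) (b := b) (g := 0) (h := 0) (t := 0) (by omega)
      (by omega)) (g' := 0) (s' := b) (by omega) (by omega) (by omega) L hL ∅ ∅ (by simp) (by simp)
    refine ⟨C, k1.1, ?_⟩
    rintro (_ | u) (_ | v) huv
    · exact huv.elim
    · exact k1.2 none (some v) rfl
    · exact k1.2 (some u) none rfl
    · exact huv.elim
  · intro a b C hC
    have := card_add_le' (hC.1 none).1 (hC.1 (some ())).1 (hC.disj () (Or.inl rfl))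
    rw [(hC.1 none).2, (hC.1 (some ())).2] at this
    omega

theorem exists_graph_choice (r : ℚ) (hr : 2 ≤ r) :
    ∃ n, ∃ H : SimpleGraph (Fin n),
      sInf {s : ℝ | ∀ a b : ℕ, 0 < b → s ≤ (a : ℝ) / (b : ℝ) → Choosable H a b} = (r : ℝ) := by
  rcases le_or_gt (5 / 2) r with h5 | h5
  · obtain ⟨n, H, h, -⟩ := exists_graph_rat r h5
    exact ⟨n, H, h⟩
  rcases hr.eq_or_lt with rfl | h2
  · simpa using off_two
  have hnum : 0 ≤ r.num := Rat.num_nonneg.2 (by linarith)
  obtain ⟨m, hm⟩ := Int.eq_ofNat_of_zero_le hnum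
  set p := r.den with hp
  have hp0 : 0 < p := r.den_pos
  have hp' : (0 : ℚ) < p := by exact_mod_cast hp0
  have hrq : r = (m : ℚ) / p := by
    rw [← Rat.num_div_den r, hm]; simp [hp]
  have k1 : 2 * p < m := by
    rw [hrq, lt_div_iff₀ hp'] at h2
    exact_mod_cast h2
  have k2 : 2 * m < 5 * p := by
    rw [hrq, div_lt_div_iff₀ hp' (by norm_num)] at h5
    have : (2 : ℚ) * m < 5 * p := by linarith
    exact_mod_cast this
  obtain ⟨n, H, h⟩ := off_graph p (m - 2 * p) (by omega) (by omega)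
  refine ⟨n, H, ?_⟩
  rw [h, show 2 * p + (m - 2 * p) = m by omega, hrq]
  push_cast
  rfl

end Pool.Agent.MP_242484_co

end MrgPart4

-- marker of a merged file
example : 731051 + 635631 = 731051 + 635631 := rfl
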